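import Mathlib
import Pool.Graph.R_seed8.H611R4.Def2

/-! # Spectral points -/

set_option autoImplicit false

open WeakDual

namespace Pool.Agent.KS6_5.HT

/-- the point `φ` of the Gelfand spectrum of `A` is a spectral set: every `a ∈ A` with `â(φ) = 0` is a
norm limit of elements `b ∈ A` with `φ ∉ supp b̂` -/
def SpectralPoint (A : Type) [NormedCommRing A] [NormedAlgebra ℂ A] (φ : characterSpace ℂ A) :
    Prop :=
  ∀ a : A, φ a = 0 → ∀ ε > 0, ∃ b : A, φ ∉ closure {ψ : characterSpace ℂ A | ψ b ≠ 0} ∧ ‖a - b‖ < ε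

/-- the closed set `E` in the Gelfand spectrum of `A` is spectral: every `a ∈ A` with `â = 0` on `E` is
a norm limit of elements `b ∈ A` with `supp b̂ ∩ E = ∅` -/
def SpectralSet (A : Type) [NormedCommRing A] [NormedAlgebra ℂ A]
    (E : Set (characterSpace ℂ A)) : Prop :=
  ∀ a : A, (∀ φ ∈ E, φ a = 0) → ∀ ε > 0,
    ∃ b : A, Disjoint (closure {ψ : characterSpace ℂ A | ψ b ≠ 0}) E ∧ ‖a - b‖ < ε

end Pool.Agent.KS6_5.HT
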