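import Mathlib
import Pool.Graph.R_seed8.H611R4.Fin2
import Pool.Graph.R_seed8.H611R4.TaskB2
import Pool.Agent.KS6_5.HT.Defs

/-! # The base algebra: its spectrum is a convergent sequence -/

set_option autoImplicit false
set_option maxSynthPendingDepth 3
set_option linter.unusedSectionVars false
set_option maxHeartbeats 1000000

open Filter Topology H611R3.ZL WeakDual H611R4 BoundedContinuousFunction

namespace Pool.Agent.KS6_5.HT

variable {A : Type} [NormedCommRing A] [NormedAlgebra ℂ A] [CompleteSpace A] (T : Tower A)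

theorem char_cases (ω : characterSpace ℂ T.BB)
    (hω : ∀ a : T.BB, (a : ℕ →ᵇ A) ∈ T.B0 → ω a = 0) (φ : characterSpace ℂ T.BB) :
    φ = ω ∨ ∃ n, ∃ s, ∃ _ : s ⊆ T.I n, ∀ a : T.BB, φ a = T.chi s ((a : ℕ →ᵇ A) n) := by
  rcases taskB3 A T φ with ⟨n, s, hs, h⟩ | h
  · exact Or.inr ⟨n, s, hs, h⟩
  · exact Or.inl (TB8.char_unique T taskB1 φ ω h hω)

theorem isolated (ω : characterSpace ℂ T.BB)
    (hω : ∀ a : T.BB, (a : ℕ →ᵇ A) ∈ T.B0 → ω a = 0) (φ : characterSpace ℂ T.BB) (hφ : φ ≠ ω) :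
    IsOpen ({φ} : Set (characterSpace ℂ T.BB)) := by
  rcases char_cases T ω hω φ with h | ⟨n, s, hs, h⟩
  · exact absurd h hφ
  · have h1 : ({φ} : Set (characterSpace ℂ T.BB)) = {ψ | ψ (TB4.EB T n s hs) ≠ 0} := by
      ext ψ
      constructor
      · intro hψ
        rw [Set.mem_singleton_iff] at hψ
        rw [hψ]
        show φ (TB4.EB T n s hs) ≠ 0
        rw [h]
        have : T.chi s ((TB4.EB T n s hs : ℕ →ᵇ A) n) = 1 := by
          show T.chi s (TB4.E T n s n) = 1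
          rw [TB4.E_apply, if_pos rfl, T.chi_e]
        rw [this]
        exact one_ne_zero
      · intro hne
        rw [Set.mem_singleton_iff]
        apply DFunLike.ext
        intro b
        rw [h b]
        have h1 := congrArg ψ (TB4.mul_EB T n s hs b)
        rw [map_mul, map_smul, smul_eq_mul] at h1
        exact mul_right_cancel₀ hne h1
    rw [h1]
    have h2 : Continuous (fun ψ : characterSpace ℂ T.BB => ψ (TB4.EB T n s hs)) :=
      (WeakDual.eval_continuous (TB4.EB T n s hs)).comp continuous_subtype_val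
    exact isOpen_ne.preimage h2

theorem countable_spec (ω : characterSpace ℂ T.BB)
    (hω : ∀ a : T.BB, (a : ℕ →ᵇ A) ∈ T.B0 → ω a = 0) : Countable (characterSpace ℂ T.BB) := by
  let f : Option (ℕ × Finset (ℕ × ℕ)) → characterSpace ℂ T.BB := fun o =>
    o.elim ω fun p => TB8.ev T p.1 p.2
  have hf : Function.Surjective f := by
    intro φ
    rcases char_cases T ω hω φ with h | ⟨n, s, hs, h⟩
    · exact ⟨none, h.symm⟩
    · refine ⟨some (n, s), CharacterSpace.ext fun a => ?_⟩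
      show TB8.ev T n s a = φ a
      rw [TB8.ev_apply, h]
  exact hf.countable

theorem not_spectral (ω : characterSpace ℂ T.BB)
    (hω : ∀ a : T.BB, (a : ℕ →ᵇ A) ∈ T.B0 → ω a = 0) : ¬ SpectralPoint T.BB ω := by
  intro hsp
  set a0 : ℕ →ᵇ A := BoundedContinuousFunction.ofNormedAddCommGroup (T.t 0)
    continuous_of_discreteTopology 1 (T.t_norm 0) with ha0
  have ha0n : ∀ n, a0 n = T.t 0 n := fun n => rfl
  have ha0B : a0 ∈ T.B0 := ⟨fun n => T.t_mem le_rfl, 0, 1, Subalgebra.one_mem _, fun n _ => by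
    rw [ha0n, one_mul]⟩
  set a : T.BB := ⟨a0, TB8.B0_le T ha0B⟩ with ha
  have hωa : ω a = 0 := hω a ha0B
  obtain ⟨b, hb, hab⟩ := hsp a hωa (1 / 4) (by norm_num)
  have hmem : (closure {ψ : characterSpace ℂ T.BB | ψ b ≠ 0})ᶜ ∈ 𝓝 ω :=
    isClosed_closure.isOpen_compl.mem_nhds hb
  have hF := TB8.le_nhds_omega T taskB1 ω hω hmem
  rw [Filter.mem_map, Filter.mem_comap] at hF
  obtain ⟨t, ht, hsub⟩ := hF
  obtain ⟨N, hN⟩ := (Filter.mem_atTop_sets.1 ht)
  have hz : ∀ s, T.chi s ((b : ℕ →ᵇ A) N) = 0 := by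
    intro s
    have h1 : TB8.ev T N s ∈ (closure {ψ : characterSpace ℂ T.BB | ψ b ≠ 0})ᶜ := by
      have : ((N, s) : ℕ × Finset (ℕ × ℕ)) ∈ Prod.fst ⁻¹' t := hN N le_rfl
      exact hsub this
    have h2 : TB8.ev T N s b = 0 := by
      by_contra h
      exact h1 (subset_closure h)
    rwa [TB8.ev_apply] at h2
  have hbN : (b : ℕ →ᵇ A) N = 0 := by
    rw [T.expand (TB8.BB_alg T taskB1 b N)]
    refine Finset.sum_eq_zero fun s _ => ?_
    rw [hz, zero_smul]
  have h1 : ‖(a0 : ℕ →ᵇ A) N - (b : ℕ →ᵇ A) N‖ ≤ 1/4 := by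
    have : ‖((a - b : T.BB) : ℕ →ᵇ A)‖ ≤ 1/4 := hab.le
    exact (BoundedContinuousFunction.norm_coe_le_norm ((a - b : T.BB) : ℕ →ᵇ A) N).trans this
  rw [hbN, sub_zero, ha0n] at h1
  have h2 := T.nondeg N
  unfold Tower.t at h1
  rw [← Finset.range_eq_Ico] at h1
  linarith

/-- **The base algebra.** -/
theorem base : ∃ (B : Type) (_ : NormedCommRing B) (_ : NormedAlgebra ℂ B) (_ : CompleteSpace B)
    (ω : characterSpace ℂ B), Semisimple B ∧ Regular B ∧ TensSemisimple B ∧ Amenable B ∧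
      (∀ ψ : characterSpace ℂ B, ψ ≠ ω → IsOpen ({ψ} : Set (characterSpace ℂ B))) ∧
      Countable (characterSpace ℂ B) ∧ ¬ SpectralPoint B ω := by
  obtain ⟨A, i1, i2, i3, ⟨T⟩⟩ := taskT
  obtain ⟨ω, hω⟩ := taskB6 taskB1 A T
  refine ⟨T.BB, inferInstance, inferInstance, ?_, ω, semisimple_BB T, taskB4 taskB1 taskB3 A T,
    tensSemisimple_of (taskB5 taskB1 A T), ?_, isolated T ω hω, countable_spec T ω hω,
    not_spectral T ω hω⟩
  · exact (Subalgebra.isClosed_topologicalClosure _).completeSpace_coe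
  · rw [H611R3.ZL.amenable_iff]
    exact taskB2 taskD taskB1 A T

end Pool.Agent.KS6_5.HT
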