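import Mathlib

/-! # Invariant means on abelian groups -/

set_option autoImplicit false

open Filter Topology

namespace Pool.Agent.KS6_5.HT

/-- bounded complex functions -/
def Bdd {V : Type} (F : V → ℂ) : Prop := ∃ C : ℝ, ∀ v, ‖F v‖ ≤ C

/-- a mean on the bounded functions -/
structure IsMean {V : Type} (m : (V → ℂ) → ℂ) : Prop where
  add : ∀ F G, Bdd F → Bdd G → m (fun v => F v + G v) = m F + m G
  smul : ∀ (c : ℂ) F, Bdd F → m (fun v => c * F v) = c * m F
  norm : ∀ F (C : ℝ), (∀ v, ‖F v‖ ≤ C) → ‖m F‖ ≤ C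
  one : m (fun _ => 1) = 1

/-- invariance under the translation by `v` -/
def Inv {V : Type} [AddCommGroup V] (m : (V → ℂ) → ℂ) (v : V) : Prop :=
  ∀ F, Bdd F → m (fun w => F (w + v)) = m F

theorem exists_ulim {ι : Type} (U : Ultrafilter ι) {z : ι → ℂ} {C : ℝ} (h : ∀ i, ‖z i‖ ≤ C) :
    ∃ l, Tendsto z U (𝓝 l) := by
  have h1 : IsCompact (Metric.closedBall (0 : ℂ) C) := isCompact_closedBall _ _
  obtain ⟨l, -, hl⟩ := h1.ultrafilter_le_nhds (U.map z) (by
    rw [le_principal_iff]
    exact mem_map.2 (Eventually.of_forall fun i => by simpa using h i))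
  exact ⟨l, hl⟩

theorem ulim_mean {V ι : Type} (U : Ultrafilter ι) (m : ι → (V → ℂ) → ℂ)
    (hm : ∀ i, IsMean (m i)) :
    ∃ M : (V → ℂ) → ℂ, IsMean M ∧ ∀ F, Bdd F → Tendsto (fun i => m i F) U (𝓝 (M F)) := by
  classical
  have hex : ∀ F : V → ℂ, ∃ l, Bdd F → Tendsto (fun i => m i F) U (𝓝 l) := by
    intro F
    by_cases hF : Bdd F
    · obtain ⟨C, hC⟩ := hF
      obtain ⟨l, hl⟩ := exists_ulim U (z := fun i => m i F) fun i => (hm i).norm F C hC
      exact ⟨l, fun _ => hl⟩
    · exact ⟨0, fun h => absurd h hF⟩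
  choose M hM using hex
  refine ⟨M, ⟨?_, ?_, ?_, ?_⟩, hM⟩
  · intro F G hF hG
    have h1 : Bdd fun v => F v + G v := by
      obtain ⟨C, hC⟩ := hF
      obtain ⟨C', hC'⟩ := hG
      exact ⟨C + C', fun v => (norm_add_le _ _).trans (add_le_add (hC v) (hC' v))⟩
    have h2 := (hM F hF).add (hM G hG)
    refine tendsto_nhds_unique (hM _ h1) (h2.congr fun i => ?_)
    rw [(hm i).add F G hF hG]
  · intro c F hF
    have h1 : Bdd fun v => c * F v := by
      obtain ⟨C, hC⟩ := hF
      refine ⟨‖c‖ * C, fun v => ?_⟩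
      rw [norm_mul]
      exact mul_le_mul_of_nonneg_left (hC v) (norm_nonneg _)
    refine tendsto_nhds_unique (hM _ h1) (((hM F hF).const_mul c).congr fun i => ?_)
    rw [(hm i).smul c F hF]
  · intro F C hC
    exact le_of_tendsto (hM F ⟨C, hC⟩).norm (Eventually.of_forall fun i => (hm i).norm F C hC)
  · have h1 : Bdd fun _ : V => (1 : ℂ) := ⟨1, fun v => by simp⟩
    refine tendsto_nhds_unique (hM _ h1) (tendsto_const_nhds.congr fun i => ?_)
    rw [(hm i).one]

theorem bdd_comp {V : Type} {F : V → ℂ} (h : Bdd F) (f : V → V) : Bdd fun v => F (f v) := by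
  obtain ⟨C, hC⟩ := h
  exact ⟨C, fun v => hC _⟩

/-- the average in the direction `v` -/
noncomputable def avg {V : Type} [AddCommGroup V] (v : V) (n : ℕ) (F : V → ℂ) : V → ℂ :=
  fun w => ((n : ℂ) + 1)⁻¹ * ∑ k ∈ Finset.range (n + 1), F (w + k • v)

theorem avg_norm {V : Type} [AddCommGroup V] (v : V) (n : ℕ) {F : V → ℂ} {C : ℝ}
    (h : ∀ w, ‖F w‖ ≤ C) (w : V) : ‖avg v n F w‖ ≤ C := by
  unfold avg
  have hn : ‖((n : ℂ) + 1)⁻¹‖ = ((n : ℝ) + 1)⁻¹ := by
    rw [norm_inv]
    congr 1
    have : ((n : ℂ) + 1) = (((n : ℝ) + 1 : ℝ) : ℂ) := by push_cast; ring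
    rw [this, Complex.norm_real, Real.norm_of_nonneg (by positivity)]
  rw [norm_mul, hn]
  have h1 : ‖∑ k ∈ Finset.range (n + 1), F (w + k • v)‖ ≤ ((n : ℝ) + 1) * C := by
    refine (norm_sum_le _ _).trans ?_
    refine (Finset.sum_le_sum fun k _ => h (w + k • v)).trans ?_
    simp
  calc ((n : ℝ) + 1)⁻¹ * ‖∑ k ∈ Finset.range (n + 1), F (w + k • v)‖
      ≤ ((n : ℝ) + 1)⁻¹ * (((n : ℝ) + 1) * C) := mul_le_mul_of_nonneg_left h1 (by positivity)
    _ = C := by field_simp

theorem avg_bdd {V : Type} [AddCommGroup V] (v : V) (n : ℕ) {F : V → ℂ} (h : Bdd F) :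
    Bdd (avg v n F) := by
  obtain ⟨C, hC⟩ := h
  exact ⟨C, avg_norm v n hC⟩

theorem avg_shift {V : Type} [AddCommGroup V] (v : V) (n : ℕ) {F : V → ℂ} {C : ℝ}
    (h : ∀ w, ‖F w‖ ≤ C) (w : V) :
    ‖avg v n (fun u => F (u + v)) w - avg v n F w‖ ≤ 2 * C / ((n : ℝ) + 1) := by
  unfold avg
  rw [← mul_sub, ← Finset.sum_sub_distrib]
  have h1 : ∑ k ∈ Finset.range (n + 1), (F (w + k • v + v) - F (w + k • v)) =
      F (w + (n + 1) • v) - F w := by
    have h2 := Finset.sum_range_sub (fun k => F (w + k • v)) (n + 1)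
    simp only [zero_smul, add_zero] at h2
    rw [← h2]
    refine Finset.sum_congr rfl fun k _ => ?_
    rw [succ_nsmul, add_assoc]
  rw [h1]
  have hn : ‖((n : ℂ) + 1)⁻¹‖ = ((n : ℝ) + 1)⁻¹ := by
    rw [norm_inv]
    congr 1
    have : ((n : ℂ) + 1) = (((n : ℝ) + 1 : ℝ) : ℂ) := by push_cast; ring
    rw [this, Complex.norm_real, Real.norm_of_nonneg (by positivity)]
  rw [norm_mul, hn, div_eq_inv_mul]
  refine mul_le_mul_of_nonneg_left ?_ (by positivity)
  refine (norm_sub_le _ _).trans ?_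
  linarith [h (w + (n + 1) • v), h w]

/-- averaging a mean in the direction `v` -/
theorem mean_avg {V : Type} [AddCommGroup V] {m : (V → ℂ) → ℂ} (hm : IsMean m) (v : V) (n : ℕ) :
    IsMean fun F => m (avg v n F) := by
  refine ⟨?_, ?_, ?_, ?_⟩
  · intro F G hF hG
    show m (avg v n fun w => F w + G w) = m (avg v n F) + m (avg v n G)
    rw [← hm.add _ _ (avg_bdd v n hF) (avg_bdd v n hG)]
    congr 1
    funext w
    unfold avg
    rw [Finset.sum_add_distrib, mul_add]
  · intro c F hF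
    show m (avg v n fun w => c * F w) = c * m (avg v n F)
    rw [← hm.smul _ _ (avg_bdd v n hF)]
    congr 1
    funext w
    unfold avg
    rw [← Finset.mul_sum]
    ring
  · intro F C hC
    exact hm.norm _ C (avg_norm v n hC)
  · show m (avg v n fun _ => 1) = 1
    have h1 : avg v n (fun _ : V => (1 : ℂ)) = fun _ => 1 := by
      funext w
      unfold avg
      rw [Finset.sum_const, Finset.card_range, nsmul_eq_mul, mul_one]
      push_cast
      have : ((n : ℂ) + 1) ≠ 0 := by exact_mod_cast Nat.succ_ne_zero n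
      rw [inv_mul_cancel₀ this]
    rw [h1, hm.one]

theorem finite_inv {V : Type} [AddCommGroup V] (S : Finset V) :
    ∃ m : (V → ℂ) → ℂ, IsMean m ∧ ∀ v ∈ S, Inv m v := by
  classical
  induction S using Finset.induction_on with
  | empty =>
    refine ⟨fun F => F 0, ⟨fun _ _ _ _ => rfl, fun _ _ _ => rfl, fun F C h => h 0, rfl⟩, ?_⟩
    intro v hv
    simp at hv
  | insert v S hv ih =>
    obtain ⟨m, hm, hS⟩ := ih
    obtain ⟨M, hM, hlim⟩ := ulim_mean (hyperfilter ℕ) (fun n F => m (avg v n F))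
      fun n => mean_avg hm v n
    refine ⟨M, hM, ?_⟩
    intro w hw F hF
    have hF' : Bdd fun u => F (u + w) := bdd_comp hF fun u => u + w
    rw [Finset.mem_insert] at hw
    rcases hw with rfl | hw
    · obtain ⟨C, hC⟩ := hF
      have h1 := (hlim _ hF').sub (hlim F ⟨C, hC⟩)
      have h2 : Tendsto (fun n : ℕ => m (avg w n fun u => F (u + w)) - m (avg w n F))
          (hyperfilter ℕ : Filter ℕ) (𝓝 0) := by
        have h3 : Tendsto (fun n : ℕ => 2 * C / ((n : ℝ) + 1)) atTop (𝓝 0) := by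
          have h4 := tendsto_one_div_add_atTop_nhds_zero_nat (𝕜 := ℝ)
          have h5 := h4.const_mul (2 * C)
          rw [mul_zero] at h5
          refine h5.congr fun n => ?_
          ring
        refine squeeze_zero_norm (fun n => ?_) (h3.mono_left Nat.hyperfilter_le_atTop)
        have h6 : m (avg w n fun u => F (u + w)) - m (avg w n F) =
            m (fun z => avg w n (fun u => F (u + w)) z + (-1) * avg w n F z) := by
          rw [hm.add _ _ (avg_bdd w n hF') (by
            obtain ⟨C', hC'⟩ := avg_bdd w n (F := F) ⟨C, hC⟩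
            exact ⟨C', fun v => by simpa using hC' v⟩), hm.smul _ _ (avg_bdd w n ⟨C, hC⟩)]
          ring
        rw [h6]
        refine hm.norm _ _ fun z => ?_
        have := avg_shift w n hC z
        rwa [sub_eq_add_neg, ← neg_one_mul] at this
      have h7 := tendsto_nhds_unique h1 h2
      exact sub_eq_zero.1 h7
    · refine tendsto_nhds_unique (hlim _ hF') ((hlim F hF).congr fun n => ?_)
      have h1 := hS w hw (avg v n F) (avg_bdd v n hF)
      rw [← h1]
      congr 1
      funext u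
      unfold avg
      congr 1
      refine Finset.sum_congr rfl fun k _ => ?_
      rw [add_right_comm]

/-- **Invariant means exist on abelian groups.** -/
theorem exists_mean (V : Type) [AddCommGroup V] :
    ∃ m : (V → ℂ) → ℂ, IsMean m ∧ ∀ v, Inv m v := by
  classical
  choose m hm hinv using fun S : Finset V => finite_inv S
  let U : Ultrafilter (Finset V) := Ultrafilter.of atTop
  obtain ⟨M, hM, hlim⟩ := ulim_mean U m hm
  refine ⟨M, hM, fun v F hF => ?_⟩
  have hF' : Bdd fun u => F (u + v) := bdd_comp hF fun u => u + v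
  refine tendsto_nhds_unique (hlim _ hF') ((hlim F hF).congr' ?_)
  have h1 : ∀ᶠ S : Finset V in (U : Filter (Finset V)), {v} ⊆ S :=
    (eventually_ge_atTop ({v} : Finset V)).filter_mono (Ultrafilter.of_le atTop)
  filter_upwards [h1] with S hS
  exact (hinv S v (by simpa using hS) F hF).symm

end Pool.Agent.KS6_5.HT
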