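import Mathlib
import Pool.Graph.R_seed8.H611R3.ZL.Def
import Pool.Agent.KS6_5.HT.Mean

/-! # Amenability of extensions -/

set_option autoImplicit false
set_option maxSynthPendingDepth 3

open Filter Topology H611R3.ZL

namespace Pool.Agent.KS6_5.HT

theorem lift_bound {E F : Type} [NormedAddCommGroup E] [NormedSpace ℂ E] [NormedAddCommGroup F]
    [NormedSpace ℂ F] (S : Submodule ℂ E) [IsClosed (S : Set E)] (T : E →L[ℂ] F)
    (h : S ≤ (T : E →ₗ[ℂ] F).ker) (y : E ⧸ S) : ‖S.liftQL T h y‖ ≤ ‖T‖ * ‖y‖ := by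
  refine le_of_forall_pos_le_add fun ε hε => ?_
  obtain ⟨x, hx, hn⟩ := Submodule.Quotient.norm_mk_lt (S := S) y
    (show 0 < ε / (‖T‖ + 1) by positivity)
  have h1 : S.liftQL T h y = T x := by
    rw [← hx]
    rfl
  rw [h1]
  calc ‖T x‖ ≤ ‖T‖ * ‖x‖ := T.le_opNorm x
    _ ≤ ‖T‖ * (‖y‖ + ε / (‖T‖ + 1)) := mul_le_mul_of_nonneg_left hn.le (norm_nonneg _)
    _ = ‖T‖ * ‖y‖ + ε * (‖T‖ / (‖T‖ + 1)) := by ring
    _ ≤ ‖T‖ * ‖y‖ + ε * 1 := by
        gcongr
        rw [div_le_one (by positivity)]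
        linarith
    _ = _ := by ring

section Ext

variable {A B : Type} [NormedCommRing A] [NormedAlgebra ℂ A] [NormedCommRing B]
  [NormedAlgebra ℂ B]

theorem extension (π : A →L[ℂ] B) (σ : B →L[ℂ] A) (hπσ : ∀ b, π (σ b) = b)
    (hπ : ∀ a b, π (a * b) = π a * π b) (hB : IsAmenable B)
    (hI : ∀ (E : Type) [NormedAddCommGroup E] [NormedSpace ℂ E] [CompleteSpace E]
      (L R : A →L[ℂ] E →L[ℂ] E), (∀ a b x, L (a * b) x = L a (L b x)) →
      (∀ a b x, R (a * b) x = R b (R a x)) → (∀ a b x, L a (R b x) = R b (L a x)) →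
      ∀ D : A →L[ℂ] (E →L[ℂ] ℂ), (∀ a b x, D (a * b) x = D b (R a x) + D a (L b x)) →
      ∃ f : E →L[ℂ] ℂ, ∀ i, π i = 0 → ∀ x, D i x = f (R i x) - f (L i x)) :
    IsAmenable A := by
  intro E _ _ _ L R hL hR hLR D hD
  obtain ⟨f, hf⟩ := hI E L R hL hR hLR D hD
  let ad : A →L[ℂ] E →L[ℂ] ℂ := (ContinuousLinearMap.compL ℂ E E ℂ f).comp (R - L)
  have had : ∀ a x, ad a x = f (R a x) - f (L a x) := by
    intro a x
    simp [ad]
  let D' : A →L[ℂ] E →L[ℂ] ℂ := D - ad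
  have hD'a : ∀ a x, D' a x = D a x - (f (R a x) - f (L a x)) := by
    intro a x
    rw [← had]
    rfl
  have hD'0 : ∀ i, π i = 0 → ∀ x, D' i x = 0 := by
    intro i hi x
    rw [hD'a, hf i hi x, sub_self]
  have hD' : ∀ a b x, D' (a * b) x = D' b (R a x) + D' a (L b x) := by
    intro a b x
    rw [hD'a, hD'a, hD'a, hD, hR, hL, hLR b a x]
    ring
  have hDL : ∀ a i x, π i = 0 → D' a (L i x) = 0 := by
    intro a i x hi
    have h1 := hD' a i x
    rw [hD'0 (a * i) (by rw [hπ, hi, mul_zero]), hD'0 i hi, zero_add] at h1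
    exact h1.symm
  have hDR : ∀ a i x, π i = 0 → D' a (R i x) = 0 := by
    intro a i x hi
    have h1 := hD' i a x
    rw [hD'0 (i * a) (by rw [hπ, hi, zero_mul]), hD'0 i hi, add_zero] at h1
    exact h1.symm
  -- the essential subspace
  let E0 : Submodule ℂ E := Submodule.span ℂ {y | ∃ i x, π i = 0 ∧ (y = L i x ∨ y = R i x)}
  let E1 : Submodule ℂ E := E0.topologicalClosure
  have hcl : IsClosed (E1 : Set E) := Submodule.isClosed_topologicalClosure _
  have hker : ∀ (F : Type) [NormedAddCommGroup F] [NormedSpace ℂ F] (T : E →L[ℂ] F),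
      (∀ i x, π i = 0 → T (L i x) = 0) → (∀ i x, π i = 0 → T (R i x) = 0) →
      E1 ≤ (T : E →ₗ[ℂ] F).ker := by
    intro F _ _ T h1 h2
    refine Submodule.topologicalClosure_minimal _ (Submodule.span_le.2 ?_) T.isClosed_ker
    rintro y ⟨i, x, hi, rfl | rfl⟩
    · exact h1 i x hi
    · exact h2 i x hi
  have hmemL : ∀ i x, π i = 0 → L i x ∈ E1 := fun i x hi =>
    Submodule.le_topologicalClosure _ (Submodule.subset_span ⟨i, x, hi, Or.inl rfl⟩)
  have hmemR : ∀ i x, π i = 0 → R i x ∈ E1 := fun i x hi =>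
    Submodule.le_topologicalClosure _ (Submodule.subset_span ⟨i, x, hi, Or.inr rfl⟩)
  let q : E →L[ℂ] E ⧸ E1 := E1.mkQL
  have hq0 : ∀ x, x ∈ E1 → q x = 0 := fun x hx => (Submodule.Quotient.mk_eq_zero E1).2 hx
  have hqn : ‖q‖ ≤ 1 := ContinuousLinearMap.opNorm_le_bound _ zero_le_one fun x => by
    rw [one_mul]
    exact Submodule.Quotient.norm_mk_le E1 x
  have hqs : ∀ y : E ⧸ E1, ∃ x, q x = y := fun y => Submodule.Quotient.mk_surjective E1 y
  have hL1 : ∀ b, E1 ≤ ((q.comp (L (σ b)) : E →L[ℂ] E ⧸ E1) : E →ₗ[ℂ] E ⧸ E1).ker := by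
    intro b
    refine hker _ _ ?_ ?_
    · intro i x hi
      show q (L (σ b) (L i x)) = 0
      rw [← hL]
      exact hq0 _ (hmemL _ _ (by rw [hπ, hi, mul_zero]))
    · intro i x hi
      show q (L (σ b) (R i x)) = 0
      rw [hLR]
      exact hq0 _ (hmemR _ _ hi)
  have hR1 : ∀ b, E1 ≤ ((q.comp (R (σ b)) : E →L[ℂ] E ⧸ E1) : E →ₗ[ℂ] E ⧸ E1).ker := by
    intro b
    refine hker _ _ ?_ ?_
    · intro i x hi
      show q (R (σ b) (L i x)) = 0
      rw [← hLR]
      exact hq0 _ (hmemL _ _ hi)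
    · intro i x hi
      show q (R (σ b) (R i x)) = 0
      rw [← hR]
      exact hq0 _ (hmemR _ _ (by rw [hπ, hi, zero_mul]))
  have hD1 : ∀ b, E1 ≤ ((D' (σ b) : E →L[ℂ] ℂ) : E →ₗ[ℂ] ℂ).ker := by
    intro b
    exact hker _ _ (fun i x hi => hDL _ i x hi) (fun i x hi => hDR _ i x hi)
  -- a lifting device
  have hlift : ∀ (F : Type) [NormedAddCommGroup F] [NormedSpace ℂ F]
      (T : B →L[ℂ] E →L[ℂ] F) (hT : ∀ b, E1 ≤ ((T b : E →L[ℂ] F) : E →ₗ[ℂ] F).ker),
      ∃ T' : B →L[ℂ] (E ⧸ E1) →L[ℂ] F, ∀ b x, T' b (q x) = T b x := by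
    intro F _ _ T hT
    refine ⟨LinearMap.mkContinuous₂
      (LinearMap.mk₂ ℂ (fun (b : B) (y : E ⧸ E1) => E1.liftQL (T b) (hT b) y) ?_ ?_ ?_ ?_)
      ‖T‖ ?_, ?_⟩
    · intro b c y
      obtain ⟨x, rfl⟩ := hqs y
      show T (b + c) x = T b x + T c x
      rw [map_add]
      rfl
    · intro c b y
      obtain ⟨x, rfl⟩ := hqs y
      show T (c • b) x = c • T b x
      rw [map_smul]
      rfl
    · intro b y z
      exact map_add _ _ _
    · intro c b y
      exact map_smul _ _ _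
    · intro b y
      rw [LinearMap.mk₂_apply]
      refine (lift_bound E1 (T b) (hT b) y).trans ?_
      exact mul_le_mul_of_nonneg_right (T.le_opNorm b) (norm_nonneg _)
    · intro b x
      rfl
  obtain ⟨LL, hLL⟩ := hlift (E ⧸ E1) ((ContinuousLinearMap.compL ℂ E E (E ⧸ E1) q).comp (L.comp σ))
    hL1
  obtain ⟨RR, hRR⟩ := hlift (E ⧸ E1) ((ContinuousLinearMap.compL ℂ E E (E ⧸ E1) q).comp (R.comp σ))
    hR1
  obtain ⟨DD, hDD⟩ := hlift ℂ (D'.comp σ) hD1
  have hLL' : ∀ b x, LL b (q x) = q (L (σ b) x) := hLL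
  have hRR' : ∀ b x, RR b (q x) = q (R (σ b) x) := hRR
  have hDD' : ∀ b x, DD b (q x) = D' (σ b) x := hDD
  have hsub : ∀ b c, π (σ (b * c) - σ b * σ c) = 0 := by
    intro b c
    rw [map_sub, hπσ, hπ, hπσ, hπσ, sub_self]
  have hqL : ∀ a a' x, π (a - a') = 0 → q (L a x) = q (L a' x) := by
    intro a a' x h
    rw [← sub_eq_zero, ← map_sub, ← sub_apply, ← map_sub]
    exact hq0 _ (hmemL _ _ h)
  have hqR : ∀ a a' x, π (a - a') = 0 → q (R a x) = q (R a' x) := by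
    intro a a' x h
    rw [← sub_eq_zero, ← map_sub, ← sub_apply, ← map_sub]
    exact hq0 _ (hmemR _ _ h)
  have hDD0 : ∀ a a' x, π (a - a') = 0 → D' a x = D' a' x := by
    intro a a' x h
    rw [← sub_eq_zero, ← sub_apply, ← map_sub]
    exact hD'0 _ h x
  obtain ⟨g, hg⟩ := hB (E ⧸ E1) inferInstance inferInstance inferInstance LL RR
    (by
      intro b c y
      obtain ⟨x, rfl⟩ := hqs y
      rw [hLL', hLL', hLL', ← hL]
      exact hqL _ _ x (hsub b c))
    (by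
      intro b c y
      obtain ⟨x, rfl⟩ := hqs y
      rw [hRR', hRR', hRR', ← hR]
      exact hqR _ _ x (hsub b c))
    (by
      intro b c y
      obtain ⟨x, rfl⟩ := hqs y
      rw [hRR', hLL', hLL', hRR', hLR])
    DD
    (by
      intro b c y
      obtain ⟨x, rfl⟩ := hqs y
      rw [hDD', hRR', hLL', hDD', hDD', ← hD']
      exact hDD0 _ _ x (hsub b c))
  refine ⟨f + g.comp q, fun a x => ?_⟩
  have hπa : π (a - σ (π a)) = 0 := by rw [map_sub, hπσ, sub_self]
  have h1 : D' a x = g (q (R a x)) - g (q (L a x)) := by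
    rw [hDD0 a (σ (π a)) x hπa, ← hDD', hg, hRR', hLL', hqL a (σ (π a)) x hπa,
      hqR a (σ (π a)) x hπa]
  have h2 := hD'a a x
  rw [h1] at h2
  show D a x = (f (R a x) + g (q (R a x))) - (f (L a x) + g (q (L a x)))
  linear_combination -h2

end Ext

section Group

variable {A V : Type} [NormedCommRing A] [NormedAlgebra ℂ A] [AddCommGroup V]

/-- On a bounded abelian group of units every derivation into a dual module is inner. -/
theorem inner_of_group (U : V → A) (hU0 : U 0 = 1) (hU : ∀ f g, U (f + g) = U f * U g)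
    (K : ℝ) (hK : ∀ f, ‖U f‖ ≤ K) (E : Type) [NormedAddCommGroup E] [NormedSpace ℂ E]
    (L R : A →L[ℂ] E →L[ℂ] E) (hL : ∀ a b x, L (a * b) x = L a (L b x))
    (hR : ∀ a b x, R (a * b) x = R b (R a x)) (hLR : ∀ a b x, L a (R b x) = R b (L a x))
    (D : A →L[ℂ] (E →L[ℂ] ℂ)) (hD : ∀ a b x, D (a * b) x = D b (R a x) + D a (L b x)) :
    ∃ f : E →L[ℂ] ℂ, ∀ v x, D (U v) x = f (R (U v) x) - f (L (U v) x) := by
  obtain ⟨m, hm, hinv⟩ := exists_mean V
  have hK0 : 0 ≤ K := (norm_nonneg _).trans (hK 0)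
  let ψ : E → V → ℂ := fun x f => D (U f) (L (U (-f)) x)
  have hψ : ∀ x f, ‖ψ x f‖ ≤ (‖D‖ * K * (‖L‖ * K)) * ‖x‖ := by
    intro x f
    calc ‖D (U f) (L (U (-f)) x)‖ ≤ ‖D‖ * ‖U f‖ * ‖L (U (-f)) x‖ := D.le_opNorm₂ _ _
      _ ≤ ‖D‖ * K * (‖L‖ * K * ‖x‖) := by
          gcongr
          · exact hK f
          · refine (L.le_opNorm₂ _ _).trans ?_
            gcongr
            exact hK _
      _ = _ := by ring
  have hb : ∀ x, Bdd (ψ x) := fun x => ⟨_, hψ x⟩
  let φ : E →L[ℂ] ℂ := LinearMap.mkContinuous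
    { toFun := fun x => m (ψ x)
      map_add' := fun x y => by
        rw [← hm.add _ _ (hb x) (hb y)]
        congr 1
        funext f
        simp [ψ]
      map_smul' := fun c x => by
        rw [RingHom.id_apply, smul_eq_mul, ← hm.smul c _ (hb x)]
        congr 1
        funext f
        simp [ψ] } (‖D‖ * K * (‖L‖ * K)) fun x => hm.norm _ _ (hψ x)
  have hφ : ∀ x, φ x = m (ψ x) := fun x => rfl
  have hconst : ∀ c : ℂ, m (fun _ => c) = c := by
    intro c
    have h1 := hm.smul c (fun _ => 1) ⟨1, fun _ => by simp⟩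
    rw [hm.one] at h1
    simpa only [mul_one] using h1
  have hUneg : ∀ f, U f * U (-f) = 1 := by
    intro f
    rw [← hU, add_neg_cancel, hU0]
  -- the fixed point equation
  have hfix : ∀ v x, φ x = φ (L (U (-v)) (R (U v) x)) + D (U v) (L (U (-v)) x) := by
    intro v x
    have h1 : ∀ f, ψ (L (U (-v)) (R (U v) x)) f =
        ψ x (f + v) + (-1) * D (U v) (L (U (-v)) x) := by
      intro f
      have h2 := hD (U v) (U f) (L (U (-f - v)) x)
      have h3 : L (U f) (L (U (-f - v)) x) = L (U (-v)) x := by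
        rw [← hL, ← hU]
        congr 3
        abel
      have h4 : L (U (-f)) (L (U (-v)) (R (U v) x)) = R (U v) (L (U (-f - v)) x) := by
        rw [← hL, ← hU, hLR]
        congr 4
        abel
      have h5 : U v * U f = U (f + v) := by
        rw [← hU, add_comm]
      have h6 : -(f + v) = -f - v := by abel
      show D (U f) (L (U (-f)) (L (U (-v)) (R (U v) x))) =
        D (U (f + v)) (L (U (-(f + v))) x) + (-1) * D (U v) (L (U (-v)) x)
      rw [h4, h6, ← h5, h2, h3]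
      ring
    have h7 : m (ψ (L (U (-v)) (R (U v) x))) = m (ψ x) + (-1) * D (U v) (L (U (-v)) x) := by
      have h8 : ψ (L (U (-v)) (R (U v) x)) =
          fun f => ψ x (f + v) + (-1) * D (U v) (L (U (-v)) x) := funext h1
      rw [h8, hm.add (fun f => ψ x (f + v)) (fun _ => (-1) * D (U v) (L (U (-v)) x))
        (bdd_comp (hb x) fun f => f + v) ⟨‖(-1) * D (U v) (L (U (-v)) x)‖, fun _ => le_rfl⟩,
        hinv v _ (hb x), hconst]
    rw [hφ, hφ, h7]
    ring
  have hφ1 : ∀ x, φ (L 1 x) = φ x := by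
    intro x
    rw [hφ, hφ]
    congr 1
    funext f
    show D (U f) (L (U (-f)) (L 1 x)) = D (U f) (L (U (-f)) x)
    rw [← hL, mul_one]
  have hkey : ∀ v x, D (U v) (L 1 x) = φ (L (U v) x) - φ (R (U v) x) := by
    intro v x
    have h1 := hfix v (L (U v) x)
    have h2 : L (U (-v)) (L (U v) x) = L 1 x := by
      rw [← hL, mul_comm, hUneg]
    have h3 : L (U (-v)) (R (U v) (L (U v) x)) = L 1 (R (U v) x) := by
      rw [← hLR, ← hL, mul_comm, hUneg]
    rw [h2, h3, hφ1] at h1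
    rw [h1]
    ring
  have h11 : ∀ y, D 1 (R 1 (L 1 y)) = 0 := by
    intro y
    have h1 := hD 1 1 (L 1 y)
    have h2 : L 1 (L 1 y) = L 1 y := by rw [← hL, mul_one]
    rw [mul_one, h2] at h1
    linear_combination -h1
  refine ⟨D 1 - φ - (D 1).comp (L 1), fun v x => ?_⟩
  have h1 := hD (U v) 1 x
  rw [mul_one, hkey] at h1
  have h2 : D 1 (L 1 (R (U v) x)) = 0 := by
    have h3 : R (U v) x = R (U v * 1) x := by rw [mul_one]
    rw [h3, hR, hLR]
    have h4 : R 1 (L 1 (R (U v) x)) = R 1 (L 1 (R (U v) x)) := rfl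
    exact h11 _
  have h5 : L 1 (L (U v) x) = L (U v) x := by rw [← hL, one_mul]
  show D (U v) x = (D 1 (R (U v) x) - φ (R (U v) x) - D 1 (L 1 (R (U v) x))) -
    (D 1 (L (U v) x) - φ (L (U v) x) - D 1 (L 1 (L (U v) x)))
  rw [h1, h2, h5]
  ring

end Group

end Pool.Agent.KS6_5.HT
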