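import Mathlib

/-! # Linear extension of functions from a convergent sequence -/

set_option autoImplicit false
set_option maxHeartbeats 1000000
set_option linter.unusedSectionVars false

open Filter Topology

namespace Pool.Agent.KS6_5.HT

/-- a tent of height one over `(t/2, 3t/2)` -/
noncomputable def tent (t s : ℝ) : ℝ := max 0 (1 - |s - t| / (t / 2))

theorem tent_nonneg (t s : ℝ) : 0 ≤ tent t s := le_max_left _ _

theorem tent_le_one {t : ℝ} (ht : 0 < t) (s : ℝ) : tent t s ≤ 1 := by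
  refine max_le zero_le_one ?_
  have : 0 ≤ |s - t| / (t / 2) := by positivity
  linarith

theorem tent_self (t : ℝ) : tent t t = 1 := by
  unfold tent
  simp

theorem tent_zero {t : ℝ} (ht : 0 < t) : tent t 0 = 0 := by
  unfold tent
  have h1 : |0 - t| / (t / 2) = 2 := by
    rw [zero_sub, abs_neg, abs_of_pos ht]
    field_simp
  rw [h1]
  norm_num

theorem tent_ne {t s : ℝ} (ht : 0 < t) (h : tent t s ≠ 0) : t / 2 < s ∧ s < 3 * t / 2 := by
  have h1 : |s - t| / (t / 2) < 1 := by
    by_contra hcon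
    push Not at hcon
    exact h (max_eq_left (by linarith))
  rw [div_lt_one (by positivity), abs_lt] at h1
  constructor <;> linarith [h1.1, h1.2]

theorem tent_cont (t : ℝ) : Continuous (tent t) := by
  unfold tent
  fun_prop

theorem quarter {τ : ℕ → ℝ} (h0 : ∀ n, 0 < τ n) (h4 : ∀ n, 4 * τ (n + 1) ≤ τ n) {m n : ℕ}
    (h : m < n) : 4 * τ n ≤ τ m := by
  induction n, h using Nat.le_induction with
  | base => exact h4 m
  | succ n hn ih =>
    have := h4 n
    have := h0 n
    linarith

theorem tent_disj {τ : ℕ → ℝ} (h0 : ∀ n, 0 < τ n) (h4 : ∀ n, 4 * τ (n + 1) ≤ τ n) {m n : ℕ}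
    (s : ℝ) (hm : tent (τ m) s ≠ 0) (hn : tent (τ n) s ≠ 0) : m = n := by
  have h1 := tent_ne (h0 m) hm
  have h2 := tent_ne (h0 n) hn
  rcases lt_trichotomy m n with h | h | h
  · have := quarter h0 h4 h
    have := h0 n
    linarith [h1.1, h2.2]
  · exact h
  · have := quarter h0 h4 h
    have := h0 m
    linarith [h2.1, h1.2]

section

variable {Y X : Type} [TopologicalSpace Y] [CompactSpace Y] [T2Space Y] [TopologicalSpace X]
  [CompactSpace X] [T2Space X]

/-- the bump function of a point -/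
noncomputable def bump (q : C(X, ℝ)) (τ : ℕ → ℝ) (n : ℕ) : C(X, ℂ) :=
  ⟨fun z => (tent (τ n) (q z) : ℂ), by
    have := tent_cont (τ n)
    fun_prop⟩

theorem disj_bound (q : C(X, ℝ)) {τ : ℕ → ℝ} (h0 : ∀ n, 0 < τ n)
    (h4 : ∀ n, 4 * τ (n + 1) ≤ τ n) (e : Y → ℕ) (he : Function.Injective e) (c : Y → ℂ)
    (t : Finset Y) (C : ℝ) (hC0 : 0 ≤ C) (hC : ∀ y ∈ t, ‖c y‖ ≤ C) :
    ‖∑ y ∈ t, c y • bump q τ (e y)‖ ≤ C := by
  refine (ContinuousMap.norm_le _ hC0).2 fun z => ?_
  have h1 : (∑ y ∈ t, c y • bump q τ (e y)) z = ∑ y ∈ t, c y * (tent (τ (e y)) (q z) : ℂ) := by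
    rw [ContinuousMap.sum_apply]
    rfl
  rw [h1]
  by_cases h : ∃ y ∈ t, tent (τ (e y)) (q z) ≠ 0
  · obtain ⟨y, hy, hne⟩ := h
    rw [Finset.sum_eq_single_of_mem y hy (by
      intro y' hy' hne'
      have : tent (τ (e y')) (q z) = 0 := by
        by_contra hcon
        exact hne' (he (tent_disj h0 h4 (q z) hcon hne))
      rw [this]
      simp)]
    rw [norm_mul, Complex.norm_real, Real.norm_of_nonneg (tent_nonneg _ _)]
    calc ‖c y‖ * tent (τ (e y)) (q z) ≤ C * 1 :=
          mul_le_mul (hC y hy) (tent_le_one (h0 _) _) (tent_nonneg _ _) hC0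
      _ = C := mul_one _
  · push Not at h
    rw [Finset.sum_eq_zero fun y hy => by rw [h y hy]; simp]
    simpa using hC0

theorem finite_large (ω : Y) (hiso : ∀ y, y ≠ ω → IsOpen ({y} : Set Y)) (g : C(Y, ℂ)) (ε : ℝ)
    (hε : 0 < ε) : {y | ε ≤ ‖g y - g ω‖}.Finite := by
  have hK : IsCompact {y | ε ≤ ‖g y - g ω‖} :=
    (isClosed_le continuous_const (by fun_prop)).isCompact
  obtain ⟨t, -, ht⟩ := hK.elim_nhds_subcover (fun y => {y}) (by
    intro y hy
    refine (hiso y ?_).mem_nhds rfl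
    rintro rfl
    have : ε ≤ ‖g y - g y‖ := hy
    rw [sub_self, norm_zero] at this
    linarith)
  refine t.finite_toSet.subset fun y hy => ?_
  have h1 := ht hy
  rw [Set.mem_iUnion₂] at h1
  obtain ⟨z, hz, h2⟩ := h1
  rw [Set.mem_singleton_iff.1 h2]
  exact hz

theorem summable_ext (ω : Y) (hiso : ∀ y, y ≠ ω → IsOpen ({y} : Set Y)) (q : C(X, ℝ))
    {τ : ℕ → ℝ} (h0 : ∀ n, 0 < τ n) (h4 : ∀ n, 4 * τ (n + 1) ≤ τ n) (e : Y → ℕ)
    (he : Function.Injective e) (g : C(Y, ℂ)) :
    Summable fun y => (g y - g ω) • bump q τ (e y) := by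
  rw [summable_iff_vanishing_norm]
  intro ε hε
  refine ⟨(finite_large ω hiso g (ε / 2) (by positivity)).toFinset, fun t ht => ?_⟩
  refine (disj_bound q h0 h4 e he (fun y => g y - g ω) t (ε / 2) (by positivity) ?_).trans_lt
    (by linarith)
  intro y hy
  by_contra hcon
  push Not at hcon
  have h1 : y ∈ (finite_large ω hiso g (ε / 2) (by positivity)).toFinset := by
    rw [Set.Finite.mem_toFinset]
    exact hcon.le
  exact Finset.disjoint_left.1 ht hy h1

theorem tsum_bound (ω : Y) (hiso : ∀ y, y ≠ ω → IsOpen ({y} : Set Y)) (q : C(X, ℝ))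
    {τ : ℕ → ℝ} (h0 : ∀ n, 0 < τ n) (h4 : ∀ n, 4 * τ (n + 1) ≤ τ n) (e : Y → ℕ)
    (he : Function.Injective e) (g : C(Y, ℂ)) :
    ‖∑' y, (g y - g ω) • bump q τ (e y)‖ ≤ 2 * ‖g‖ := by
  have h1 := (summable_ext ω hiso q h0 h4 e he g).hasSum
  have h2 : Tendsto (fun t : Finset Y => ‖∑ y ∈ t, (g y - g ω) • bump q τ (e y)‖) atTop
      (𝓝 ‖∑' y, (g y - g ω) • bump q τ (e y)‖) := h1.norm
  refine le_of_tendsto h2 (Eventually.of_forall fun t => ?_)
  refine disj_bound q h0 h4 e he (fun y => g y - g ω) t _ (by positivity) fun y _ => ?_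
  refine (norm_sub_le _ _).trans ?_
  linarith [g.norm_coe_le_norm y, g.norm_coe_le_norm ω]

/-- **Linear extension.** -/
theorem exists_ext (ω : Y) (hiso : ∀ y, y ≠ ω → IsOpen ({y} : Set Y)) (e : Y → ℕ)
    (he : Function.Injective e) (q : C(X, ℝ)) (x : ℕ → X) (p : X)
    (hx : Tendsto x atTop (𝓝 p)) (hq0 : q p = 0) (hqpos : ∀ n, 0 < q (x n))
    (hq4 : ∀ n, 4 * q (x (n + 1)) ≤ q (x n)) :
    ∃ ι : C(Y, X), Function.Injective ι ∧ ι ω = p ∧
      ∃ E0 : C(Y, ℂ) →L[ℂ] C(X, ℂ), (∀ g y, E0 g (ι y) = g y) ∧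
        ∀ g z, q z = 0 → E0 g z = g ω := by
  classical
  let τ : ℕ → ℝ := fun n => q (x n)
  have h0 : ∀ n, 0 < τ n := hqpos
  have h4 : ∀ n, 4 * τ (n + 1) ≤ τ n := hq4
  have hxinj : Function.Injective x := by
    intro m n hmn
    rcases lt_trichotomy m n with h | h | h
    · have h1 := quarter h0 h4 h
      have h2 := h0 n
      have h3 : τ m = τ n := by show q (x m) = q (x n); rw [hmn]
      linarith
    · exact h
    · have h1 := quarter h0 h4 h
      have h2 := h0 m
      have h3 : τ m = τ n := by show q (x m) = q (x n); rw [hmn]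
      linarith
  have hxp : ∀ n, x n ≠ p := by
    intro n h
    have := h0 n
    have h1 : τ n = 0 := by show q (x n) = 0; rw [h, hq0]
    linarith
  let j : Y → X := fun y => if y = ω then p else x (e y)
  have hjω : j ω = p := if_pos rfl
  have hjy : ∀ y, y ≠ ω → j y = x (e y) := fun y hy => if_neg hy
  have hjinj : Function.Injective j := by
    intro y z hyz
    by_cases hy : y = ω
    · by_cases hz : z = ω
      · rw [hy, hz]
      · rw [hy, hjω, hjy z hz] at hyz
        exact absurd hyz.symm (hxp _)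
    · by_cases hz : z = ω
      · rw [hz, hjω, hjy y hy] at hyz
        exact absurd hyz (hxp _)
      · rw [hjy y hy, hjy z hz] at hyz
        exact he (hxinj hyz)
  have hjc : Continuous j := by
    rw [continuous_iff_continuousAt]
    intro y
    by_cases hy : y = ω
    · rw [hy]
      intro U hU
      rw [hjω] at hU
      have h1 : ∀ᶠ n in atTop, x n ∈ U := hx hU
      obtain ⟨N, hN⟩ := eventually_atTop.1 h1
      have hfin : {y : Y | e y < N}.Finite := by
        have : {y : Y | e y < N} = e ⁻¹' (Set.Iio N) := rfl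
        rw [this]
        exact (Set.finite_Iio N).preimage he.injOn
      have hfin' : ({y : Y | e y < N} \ {ω}).Finite := hfin.subset Set.sdiff_subset
      have hopen : IsOpen ({y : Y | e y < N} \ {ω})ᶜ := hfin'.isClosed.isOpen_compl
      have hmem : ω ∈ ({y : Y | e y < N} \ {ω})ᶜ := fun h => h.2 rfl
      show j ⁻¹' U ∈ 𝓝 ω
      refine mem_of_superset (hopen.mem_nhds hmem) fun z hz => ?_
      show j z ∈ U
      by_cases hzω : z = ω
      · rw [hzω, hjω]
        exact mem_of_mem_nhds hU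
      · rw [hjy z hzω]
        refine hN _ ?_
        by_contra hcon
        push Not at hcon
        exact hz ⟨hcon, hzω⟩
    · have h1 : 𝓝 y = pure y := (isOpen_singleton_iff_nhds_eq_pure y).1 (hiso y hy)
      show Tendsto j (𝓝 y) (𝓝 (j y))
      rw [h1]
      exact tendsto_pure_nhds j y
  let b : Y → C(X, ℂ) := fun y => bump q τ (e y)
  have hsm : ∀ g : C(Y, ℂ), Summable fun y => (g y - g ω) • b y := fun g =>
    summable_ext ω hiso q h0 h4 e he g
  let E0 : C(Y, ℂ) →L[ℂ] C(X, ℂ) := LinearMap.mkContinuous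
    { toFun := fun g => ContinuousMap.const X (g ω) + ∑' y, (g y - g ω) • b y
      map_add' := fun f g => by
        have h1 : ∑' y, ((f + g) y - (f + g) ω) • b y =
            ∑' y, (f y - f ω) • b y + ∑' y, (g y - g ω) • b y := by
          rw [← (hsm f).tsum_add (hsm g)]
          refine tsum_congr fun y => ?_
          rw [← add_smul]
          congr 1
          show f y + g y - (f ω + g ω) = _
          ring
        rw [h1]
        have h2 : ContinuousMap.const X ((f + g) ω) =
            ContinuousMap.const X (f ω) + ContinuousMap.const X (g ω) := rfl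
        rw [h2]
        abel
      map_smul' := fun c f => by
        have h1 : ∑' y, ((c • f) y - (c • f) ω) • b y = c • ∑' y, (f y - f ω) • b y := by
          rw [← (hsm f).tsum_const_smul c]
          refine tsum_congr fun y => ?_
          rw [smul_smul]
          congr 1
          show c * f y - c * f ω = _
          ring
        rw [h1]
        have h2 : ContinuousMap.const X ((c • f) ω) = c • ContinuousMap.const X (f ω) := rfl
        rw [h2, RingHom.id_apply, smul_add] } 3 fun g => by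
    show ‖ContinuousMap.const X (g ω) + ∑' y, (g y - g ω) • b y‖ ≤ 3 * ‖g‖
    have h1 : ‖ContinuousMap.const X (g ω)‖ ≤ ‖g‖ := by
      refine (ContinuousMap.norm_le _ (norm_nonneg _)).2 fun z => ?_
      exact g.norm_coe_le_norm ω
    have h2 : ‖∑' y, (g y - g ω) • b y‖ ≤ 2 * ‖g‖ := tsum_bound ω hiso q h0 h4 e he g
    refine (norm_add_le _ _).trans ?_
    linarith
  have hE0 : ∀ g z, E0 g z = g ω + ∑' y, (g y - g ω) * (tent (τ (e y)) (q z) : ℂ) := by
    intro g z
    show (ContinuousMap.const X (g ω) + ∑' y, (g y - g ω) • b y) z = _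
    have h1 : (∑' y, (g y - g ω) • b y) z = ∑' y, (g y - g ω) * (tent (τ (e y)) (q z) : ℂ) := by
      have h2 := (ContinuousMap.evalCLM ℂ z : C(X, ℂ) →L[ℂ] ℂ).map_tsum (hsm g)
      exact h2
    rw [ContinuousMap.add_apply, h1]
    rfl
  have hE0z : ∀ (g : C(Y, ℂ)) z, q z = 0 → E0 g z = g ω := by
    intro g z hz
    rw [hE0, hz]
    have h1 : ∀ z, (g z - g ω) * (tent (τ (e z)) 0 : ℂ) = 0 := by
      intro z
      rw [tent_zero (h0 _)]
      simp
    simp_rw [h1]
    simp
  refine ⟨⟨j, hjc⟩, hjinj, hjω, E0, fun g y => ?_, hE0z⟩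
  show E0 g (j y) = g y
  by_cases hy : y = ω
  · rw [hy, hjω]
    exact hE0z g p hq0
  · rw [hE0, hjy y hy, tsum_eq_single y]
    · show g ω + (g y - g ω) * (tent (τ (e y)) (τ (e y)) : ℂ) = g y
      rw [tent_self]
      push_cast
      ring
    · intro z hz
      have h1 : tent (τ (e z)) (q (x (e y))) = 0 := by
        by_contra hcon
        have h2 : tent (τ (e y)) (q (x (e y))) ≠ 0 := by
          show tent (τ (e y)) (τ (e y)) ≠ 0
          rw [tent_self]
          exact one_ne_zero
        exact hz (he (tent_disj h0 h4 _ hcon h2))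
      rw [h1]
      simp

end

end Pool.Agent.KS6_5.HT
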