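import Mathlib
import Pool.Graph.R_seed8.H611R4.Def2
import Pool.Agent.KS6_5.HT.ExtAm

/-! # The pullback algebra -/

set_option autoImplicit false
set_option maxSynthPendingDepth 3
set_option linter.unusedSectionVars false

open Filter Topology H611R3.ZL WeakDual

namespace Pool.Agent.KS6_5.HT

variable {B : Type} [NormedCommRing B] [NormedAlgebra ℂ B] [CompleteSpace B]
  {X : Type} [TopologicalSpace X] [CompactSpace X] [T2Space X]

theorem char_bound (φ : characterSpace ℂ B) (a : B) : ‖φ a‖ ≤ ‖(1 : B)‖ * ‖a‖ := by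
  have h1 := CharacterSpace.norm_le_norm_one φ
  have h2 := (toStrongDual (φ : WeakDual ℂ B)).le_opNorm a
  exact h2.trans (mul_le_mul_of_nonneg_right h1 (norm_nonneg a))

theorem char_cont (a : B) : Continuous fun φ : characterSpace ℂ B => φ a :=
  (WeakDual.eval_continuous a).comp continuous_subtype_val

/-- the Gelfand transform -/
noncomputable def G0 : B →L[ℂ] C(characterSpace ℂ B, ℂ) :=
  LinearMap.mkContinuous
    { toFun := fun b => ⟨fun φ => φ b, char_cont b⟩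
      map_add' := fun a b => by
        ext φ
        exact map_add φ a b
      map_smul' := fun c b => by
        ext φ
        exact map_smul φ c b } ‖(1 : B)‖ fun b => by
    refine (ContinuousMap.norm_le _ (by positivity)).2 fun φ => ?_
    exact char_bound φ b

theorem G0_apply (b : B) (φ : characterSpace ℂ B) : G0 b φ = φ b := rfl

/-- the pullback `{(b, f) : b̂ = f ∘ ι}` -/
def PB (ι : C(characterSpace ℂ B, X)) : Subalgebra ℂ (B × C(X, ℂ)) where
  carrier := {a | ∀ ψ : characterSpace ℂ B, ψ a.1 = a.2 (ι ψ)}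
  mul_mem' := by
    intro a b ha hb ψ
    show ψ (a.1 * b.1) = a.2 (ι ψ) * b.2 (ι ψ)
    rw [map_mul, ha ψ, hb ψ]
  add_mem' := by
    intro a b ha hb ψ
    show ψ (a.1 + b.1) = a.2 (ι ψ) + b.2 (ι ψ)
    rw [map_add, ha ψ, hb ψ]
  algebraMap_mem' := by
    intro r ψ
    show ψ (algebraMap ℂ B r) = algebraMap ℂ C(X, ℂ) r (ι ψ)
    rw [AlgHomClass.commutes]
    rfl

variable (ι : C(characterSpace ℂ B, X))

theorem mem_PB {a : B × C(X, ℂ)} : a ∈ PB ι ↔ ∀ ψ : characterSpace ℂ B, ψ a.1 = a.2 (ι ψ) :=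
  Iff.rfl

theorem isClosed_PB : IsClosed (PB ι : Set (B × C(X, ℂ))) := by
  have h1 : (PB ι : Set (B × C(X, ℂ))) =
      ⋂ ψ : characterSpace ℂ B, {a | ψ a.1 = a.2 (ι ψ)} := by
    ext a
    simp [mem_PB]
  rw [h1]
  refine isClosed_iInter fun ψ => isClosed_eq ?_ ?_
  · exact (map_continuous ψ).comp continuous_fst
  · exact (continuous_eval_const (ι ψ)).comp continuous_snd

instance : CompleteSpace (PB ι) := (isClosed_PB ι).completeSpace_coe

/-- the restriction -/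
noncomputable def pr : PB ι →L[ℂ] B :=
  LinearMap.mkContinuous
    { toFun := fun a => (a : B × C(X, ℂ)).1
      map_add' := fun a b => rfl
      map_smul' := fun c a => rfl } 1 fun a => by
    rw [one_mul]
    exact norm_fst_le (a : B × C(X, ℂ))

theorem pr_apply (a : PB ι) : pr ι a = (a : B × C(X, ℂ)).1 := rfl

/-- the function on `X` -/
noncomputable def fn : PB ι →L[ℂ] C(X, ℂ) :=
  LinearMap.mkContinuous
    { toFun := fun a => (a : B × C(X, ℂ)).2
      map_add' := fun a b => rfl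
      map_smul' := fun c a => rfl } 1 fun a => by
    rw [one_mul]
    exact norm_snd_le (a : B × C(X, ℂ))

theorem fn_apply (a : PB ι) : fn ι a = (a : B × C(X, ℂ)).2 := rfl

theorem norm_PB (a : PB ι) : ‖a‖ = max ‖pr ι a‖ ‖fn ι a‖ := rfl

theorem pr_mul (a b : PB ι) : pr ι (a * b) = pr ι a * pr ι b := rfl
theorem fn_mul (a b : PB ι) : fn ι (a * b) = fn ι a * fn ι b := rfl
theorem pr_one : pr ι 1 = 1 := rfl
theorem fn_one : fn ι 1 = 1 := rfl

theorem PB_ext {a b : PB ι} (h1 : pr ι a = pr ι b) (h2 : fn ι a = fn ι b) : a = b :=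
  Subtype.ext (Prod.ext h1 h2)

theorem fn_iota (a : PB ι) (ψ : characterSpace ℂ B) : fn ι a (ι ψ) = ψ (pr ι a) :=
  ((mem_PB ι).1 a.2 ψ).symm

/-- the element `(0, f)` -/
noncomputable def zf (f : C(X, ℂ)) (hf : ∀ ψ, f (ι ψ) = 0) : PB ι :=
  ⟨(0, f), fun ψ => by
    show ψ (0 : B) = f (ι ψ)
    rw [map_zero, hf]⟩

theorem pr_zf (f : C(X, ℂ)) (hf : ∀ ψ, f (ι ψ) = 0) : pr ι (zf ι f hf) = 0 := rfl
theorem fn_zf (f : C(X, ℂ)) (hf : ∀ ψ, f (ι ψ) = 0) : fn ι (zf ι f hf) = f := rfl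

theorem norm_zf (f : C(X, ℂ)) (hf : ∀ ψ, f (ι ψ) = 0) : ‖zf ι f hf‖ = ‖f‖ := by
  rw [norm_PB, pr_zf, fn_zf, norm_zero]
  exact max_eq_right (norm_nonneg _)

/-- the real functions vanishing on the image of `ι` -/
def VV : AddSubgroup C(X, ℝ) where
  carrier := {f | ∀ ψ, f (ι ψ) = 0}
  zero_mem' := fun ψ => rfl
  add_mem' := by
    intro f g hf hg ψ
    show f (ι ψ) + g (ι ψ) = 0
    rw [hf, hg, add_zero]
  neg_mem' := by
    intro f hf ψ
    show -f (ι ψ) = 0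
    rw [hf, neg_zero]

/-- `exp(i f)` -/
noncomputable def ef (f : C(X, ℝ)) : C(X, ℂ) :=
  ⟨fun x => Complex.exp (Complex.I * (f x : ℂ)), by fun_prop⟩

/-- the group of units -/
noncomputable def UU (f : VV ι) : PB ι :=
  ⟨(1, ef f.1), fun ψ => by
    show ψ (1 : B) = Complex.exp (Complex.I * ((f.1 (ι ψ) : ℝ) : ℂ))
    have h := f.2 ψ
    have h' : f.1 (ι ψ) = 0 := h
    rw [h', map_one]
    simp⟩

theorem UU_zero : UU ι 0 = 1 := by
  refine PB_ext ι rfl ?_
  ext x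
  show Complex.exp (Complex.I * ((0 : ℝ) : ℂ)) = 1
  simp

theorem UU_add (f g : VV ι) : UU ι (f + g) = UU ι f * UU ι g := by
  refine PB_ext ι ?_ ?_
  · rw [pr_mul]
    show (1 : B) = 1 * 1
    rw [mul_one]
  · rw [fn_mul]
    ext x
    show Complex.exp (Complex.I * ((f.1 x + g.1 x : ℝ) : ℂ)) =
      Complex.exp (Complex.I * ((f.1 x : ℝ) : ℂ)) * Complex.exp (Complex.I * ((g.1 x : ℝ) : ℂ))
    rw [← Complex.exp_add]
    congr 1
    push_cast
    ring

theorem UU_norm (f : VV ι) : ‖UU ι f‖ ≤ max ‖(1 : B)‖ 1 := by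
  rw [norm_PB]
  refine max_le_max le_rfl ((ContinuousMap.norm_le _ zero_le_one).2 fun x => ?_)
  show ‖Complex.exp (Complex.I * ((f.1 x : ℝ) : ℂ))‖ ≤ 1
  rw [mul_comm, Complex.norm_exp_ofReal_mul_I]

/-- A bounded functional vanishing on the group vanishes on the kernel of the restriction. -/
theorem vanish_real (T : PB ι →L[ℂ] ℂ) (hT : ∀ v, T (UU ι v) = 0) (f : C(X, ℝ))
    (hf : ∀ ψ, f (ι ψ) = 0) :
    T (zf ι ⟨fun x => (f x : ℂ), by fun_prop⟩ fun ψ => by simp [hf ψ]) = 0 := by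
  set a : PB ι := zf ι ⟨fun x => (f x : ℂ), by fun_prop⟩ fun ψ => by simp [hf ψ] with ha
  have hT1 : T 1 = 0 := by rw [← UU_zero ι]; exact hT 0
  have hfn : fn ι a = ⟨fun x => (f x : ℂ), by fun_prop⟩ := rfl
  have hpr : pr ι a = 0 := rfl
  have key : ∀ t : ℝ, 0 < t → t * ‖f‖ ≤ 1 → ‖T a‖ ≤ ‖T‖ * ‖f‖ ^ 2 * t := by
    intro t ht htf
    have hmem : ∀ ψ, (t • f) (ι ψ) = 0 := by
      intro ψ
      show t * f (ι ψ) = 0
      rw [hf, mul_zero]
    let v : VV ι := ⟨t • f, hmem⟩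
    have h1 : ‖UU ι v - 1 - (Complex.I * t) • a‖ ≤ (t * ‖f‖) ^ 2 := by
      rw [norm_PB]
      refine max_le ?_ ?_
      · have : pr ι (UU ι v - 1 - (Complex.I * t) • a) = 0 := by
          rw [map_sub, map_sub, map_smul, hpr, smul_zero, sub_zero]
          show (1 : B) - 1 = 0
          rw [sub_self]
        rw [this, norm_zero]
        positivity
      · refine (ContinuousMap.norm_le _ (by positivity)).2 fun x => ?_
        have h2 : fn ι (UU ι v - 1 - (Complex.I * t) • a) x =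
            Complex.exp (Complex.I * ((t * f x : ℝ) : ℂ)) - 1 - Complex.I * ((t * f x : ℝ) : ℂ) := by
          rw [map_sub, map_sub, map_smul, hfn]
          show Complex.exp (Complex.I * ((t * f x : ℝ) : ℂ)) - 1 - (Complex.I * t) * (f x : ℂ) = _
          push_cast
          ring
        rw [h2]
        have h3 : ‖Complex.I * ((t * f x : ℝ) : ℂ)‖ ≤ t * ‖f‖ := by
          rw [norm_mul, Complex.norm_I, one_mul, Complex.norm_real, norm_mul,
            Real.norm_of_nonneg ht.le]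
          exact mul_le_mul_of_nonneg_left (f.norm_coe_le_norm x) ht.le
        refine (Complex.norm_exp_sub_one_sub_id_le (h3.trans htf)).trans ?_
        gcongr
    have h2 : T (UU ι v - 1 - (Complex.I * t) • a) = -(Complex.I * t) * T a := by
      rw [map_sub, map_sub, map_smul, hT, hT1, smul_eq_mul]
      ring
    have h3 : t * ‖T a‖ ≤ ‖T‖ * (t * ‖f‖) ^ 2 := by
      have h4 := T.le_opNorm (UU ι v - 1 - (Complex.I * t) • a)
      rw [h2, norm_mul, norm_neg, norm_mul, Complex.norm_I, one_mul, Complex.norm_real,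
        Real.norm_of_nonneg ht.le] at h4
      exact h4.trans (mul_le_mul_of_nonneg_left h1 (norm_nonneg _))
    have h5 : t * ‖T a‖ ≤ t * (‖T‖ * ‖f‖ ^ 2 * t) := by
      refine h3.trans (le_of_eq ?_)
      ring
    exact le_of_mul_le_mul_left h5 ht
  have hlim : Tendsto (fun t : ℝ => ‖T‖ * ‖f‖ ^ 2 * t) (𝓝[>] 0) (𝓝 0) := by
    have h1 : Tendsto (fun t : ℝ => ‖T‖ * ‖f‖ ^ 2 * t) (𝓝 0) (𝓝 (‖T‖ * ‖f‖ ^ 2 * 0)) :=
      (continuous_const.mul continuous_id).tendsto 0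
    rw [mul_zero] at h1
    exact h1.mono_left nhdsWithin_le_nhds
  have hev : ∀ᶠ t : ℝ in 𝓝[>] 0, ‖T a‖ ≤ ‖T‖ * ‖f‖ ^ 2 * t := by
    have h1 : ∀ᶠ t : ℝ in 𝓝[>] 0, t * ‖f‖ ≤ 1 := by
      have h2 : Tendsto (fun t : ℝ => t * ‖f‖) (𝓝 0) (𝓝 (0 * ‖f‖)) :=
        (continuous_id.mul continuous_const).tendsto 0
      rw [zero_mul] at h2
      have h3 := (h2.mono_left (nhdsWithin_le_nhds (s := Set.Ioi 0))).eventually
        (eventually_lt_nhds (show (0 : ℝ) < 1 by norm_num))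
      exact h3.mono fun t ht => ht.le
    filter_upwards [h1, self_mem_nhdsWithin] with t h2 h3
    exact key t h3 h2
  have h6 := ge_of_tendsto hlim hev
  exact norm_le_zero_iff.1 h6

theorem vanish_ker (T : PB ι →L[ℂ] ℂ) (hT : ∀ v, T (UU ι v) = 0) (a : PB ι)
    (ha : pr ι a = 0) : T a = 0 := by
  have h0 : ∀ ψ, fn ι a (ι ψ) = 0 := by
    intro ψ
    rw [fn_iota, ha, map_zero]
  have hre : ∀ ψ, (⟨fun x => (fn ι a x).re, by fun_prop⟩ : C(X, ℝ)) (ι ψ) = 0 := by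
    intro ψ
    show (fn ι a (ι ψ)).re = 0
    rw [h0, Complex.zero_re]
  have him : ∀ ψ, (⟨fun x => (fn ι a x).im, by fun_prop⟩ : C(X, ℝ)) (ι ψ) = 0 := by
    intro ψ
    show (fn ι a (ι ψ)).im = 0
    rw [h0, Complex.zero_im]
  have h1 := vanish_real ι T hT _ hre
  have h2 := vanish_real ι T hT _ him
  have h3 : a = zf ι ⟨fun x => ((fn ι a x).re : ℂ), by fun_prop⟩ (fun ψ => by simp [h0 ψ]) +
      Complex.I • zf ι ⟨fun x => ((fn ι a x).im : ℂ), by fun_prop⟩ (fun ψ => by simp [h0 ψ]) := by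
    refine PB_ext ι ?_ ?_
    · rw [map_add, map_smul, pr_zf, pr_zf, smul_zero, add_zero, ha]
    · rw [map_add, map_smul, fn_zf, fn_zf]
      ext x
      show fn ι a x = ((fn ι a x).re : ℂ) + Complex.I * ((fn ι a x).im : ℂ)
      rw [mul_comm, Complex.re_add_im]
  rw [h3, map_add, map_smul]
  have h4 : T (zf ι ⟨fun x => ((fn ι a x).re : ℂ), by fun_prop⟩ (fun ψ => by simp [h0 ψ])) = 0 := h1
  have h5 : T (zf ι ⟨fun x => ((fn ι a x).im : ℂ), by fun_prop⟩ (fun ψ => by simp [h0 ψ])) = 0 := h2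
  rw [h4, h5, smul_zero, add_zero]

/-- a linear section of the restriction -/
noncomputable def sg (E0 : C(characterSpace ℂ B, ℂ) →L[ℂ] C(X, ℂ))
    (hE : ∀ g ψ, E0 g (ι ψ) = g ψ) : B →L[ℂ] PB ι :=
  LinearMap.mkContinuous
    { toFun := fun b => ⟨(b, E0 (G0 b)), fun ψ => by
        show ψ b = E0 (G0 b) (ι ψ)
        rw [hE, G0_apply]⟩
      map_add' := fun a b => PB_ext ι rfl (by
        show E0 (G0 (a + b)) = E0 (G0 a) + E0 (G0 b)
        rw [map_add, map_add])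
      map_smul' := fun c a => PB_ext ι rfl (by
        show E0 (G0 (c • a)) = c • E0 (G0 a)
        rw [map_smul, map_smul]) } (1 + ‖E0‖ * ‖(G0 : B →L[ℂ] _)‖) fun b => by
    rw [norm_PB]
    refine max_le ?_ ?_
    · show ‖b‖ ≤ _
      nlinarith [norm_nonneg b, norm_nonneg E0, norm_nonneg (G0 : B →L[ℂ] _),
        mul_nonneg (mul_nonneg (norm_nonneg E0) (norm_nonneg (G0 : B →L[ℂ] _))) (norm_nonneg b)]
    · show ‖E0 (G0 b)‖ ≤ _
      have h1 : ‖E0 (G0 b)‖ ≤ ‖E0‖ * (‖(G0 : B →L[ℂ] _)‖ * ‖b‖) :=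
        (E0.le_opNorm _).trans (mul_le_mul_of_nonneg_left
          (ContinuousLinearMap.le_opNorm (G0 : B →L[ℂ] C(characterSpace ℂ B, ℂ)) b) (norm_nonneg _))
      refine h1.trans ?_
      nlinarith [norm_nonneg b]

theorem pr_sg (E0 : C(characterSpace ℂ B, ℂ) →L[ℂ] C(X, ℂ)) (hE : ∀ g ψ, E0 g (ι ψ) = g ψ)
    (b : B) : pr ι (sg ι E0 hE b) = b := rfl

theorem fn_sg (E0 : C(characterSpace ℂ B, ℂ) →L[ℂ] C(X, ℂ)) (hE : ∀ g ψ, E0 g (ι ψ) = g ψ)
    (b : B) : fn ι (sg ι E0 hE b) = E0 (G0 b) := rfl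

/-- **Amenability of the pullback.** -/
theorem PB_amenable (E0 : C(characterSpace ℂ B, ℂ) →L[ℂ] C(X, ℂ))
    (hE : ∀ g ψ, E0 g (ι ψ) = g ψ) (hB : Amenable B) : Amenable (PB ι) := by
  rw [amenable_iff] at hB ⊢
  refine extension (pr ι) (sg ι E0 hE) (pr_sg ι E0 hE) (pr_mul ι) hB ?_
  intro E _ _ _ L R hL hR hLR D hD
  obtain ⟨f, hf⟩ := inner_of_group (UU ι) (UU_zero ι) (UU_add ι) _ (UU_norm ι) E L R hL hR hLR D hD
  refine ⟨f, fun i hi x => ?_⟩
  let T : PB ι →L[ℂ] ℂ := D.flip x - f.comp (R.flip x) + f.comp (L.flip x)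
  have hTa : ∀ a, T a = D a x - f (R a x) + f (L a x) := fun a => rfl
  have h1 := vanish_ker ι T (fun v => by rw [hTa, hf]; ring) i hi
  rw [hTa] at h1
  linear_combination h1

end Pool.Agent.KS6_5.HT
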