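import Mathlib
import Pool.Agent.KS6_5.HT.PB

/-! # The spectrum of the pullback algebra -/

set_option autoImplicit false
set_option maxSynthPendingDepth 3
set_option linter.unusedSectionVars false

open Filter Topology H611R3.ZL WeakDual H611R4

namespace Pool.Agent.KS6_5.HT

variable {B : Type} [NormedCommRing B] [NormedAlgebra ℂ B] [CompleteSpace B]
  {X : Type} [TopologicalSpace X] [CompactSpace X] [T2Space X]
  (ι : C(characterSpace ℂ B, X))

/-- evaluation at a point of `X` -/
noncomputable def evA (x : X) : PB ι →ₐ[ℂ] ℂ where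
  toFun a := fn ι a x
  map_one' := rfl
  map_mul' _ _ := rfl
  map_zero' := rfl
  map_add' _ _ := rfl
  commutes' _ := rfl

/-- the character of a point of `X` -/
noncomputable def pt (x : X) : characterSpace ℂ (PB ι) := CharacterSpace.equivAlgHom.symm (evA ι x)

theorem pt_apply (x : X) (a : PB ι) : pt ι x a = fn ι a x := by
  unfold pt
  rw [CharacterSpace.equivAlgHom_symm_coe]
  rfl

theorem pt_continuous : Continuous (pt ι) := by
  rw [Topology.IsInducing.subtypeVal.continuous_iff]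
  refine WeakDual.continuous_of_continuous_eval fun a => ?_
  have h1 : (fun x => (Subtype.val ∘ pt ι) x a) = fun x => fn ι a x := by
    funext x
    exact pt_apply ι x a
  rw [h1]
  exact (fn ι a).continuous

theorem sep (E0 : C(characterSpace ℂ B, ℂ) →L[ℂ] C(X, ℂ)) (hE : ∀ g ψ, E0 g (ι ψ) = g ψ)
    (hreg : Regular B) (F : Set X) (hF : IsClosed F) (x : X) (hx : x ∉ F) :
    ∃ a : PB ι, fn ι a x ≠ 0 ∧ ∀ y ∈ F, fn ι a y = 0 := by
  by_cases hr : x ∈ Set.range ι
  · obtain ⟨ψ, rfl⟩ := hr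
    have hF' : IsClosed (ι ⁻¹' F) := hF.preimage ι.continuous
    obtain ⟨V, hVo, hFV, hV⟩ := normal_exists_closure_subset hF' (isOpen_compl_singleton (x := ψ))
      (by
        intro φ hφ h
        rw [Set.mem_singleton_iff.1 h] at hφ
        exact hx hφ)
    obtain ⟨b, hb1, hb2⟩ := hreg (closure V) ψ isClosed_closure fun h => hV h rfl
    set K : Set (characterSpace ℂ B) := closure {φ | φ b ≠ 0} with hK
    have hKV : K ⊆ Vᶜ := by
      refine closure_minimal ?_ hVo.isClosed_compl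
      intro φ hφ h
      exact hφ (hb2 φ (subset_closure h))
    have hKc : IsClosed (ι '' K) := (isClosed_closure.isCompact.image ι.continuous).isClosed
    obtain ⟨h, h0, h1, -⟩ := exists_continuous_zero_one_of_isClosed hF hKc (by
      rw [Set.disjoint_left]
      rintro y hy ⟨φ, hφ, rfl⟩
      exact hKV hφ (hFV hy))
    let hc : C(X, ℂ) := ⟨fun y => (h y : ℂ), by fun_prop⟩
    refine ⟨⟨(b, E0 (G0 b) * hc), fun φ => ?_⟩, ?_, ?_⟩
    · show φ b = E0 (G0 b) (ι φ) * ((h (ι φ) : ℝ) : ℂ)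
      rw [hE, G0_apply]
      by_cases hφ : φ b = 0
      · rw [hφ, zero_mul]
      · have h2 : h (ι φ) = 1 := h1 ⟨φ, subset_closure hφ, rfl⟩
        rw [h2]
        simp
    · show E0 (G0 b) (ι ψ) * ((h (ι ψ) : ℝ) : ℂ) ≠ 0
      have h2 : h (ι ψ) = 1 := h1 ⟨ψ, subset_closure hb1, rfl⟩
      rw [hE, G0_apply, h2]
      simpa using hb1
    · intro y hy
      show E0 (G0 b) y * ((h y : ℝ) : ℂ) = 0
      have h2 : h y = 0 := h0 hy
      rw [h2]
      simp
  · have hS : IsClosed (Set.range ι) := (isCompact_range ι.continuous).isClosed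
    obtain ⟨h, h0, h1, -⟩ := exists_continuous_zero_one_of_isClosed (hF.union hS)
      (isClosed_singleton (x := x)) (by
      rw [Set.disjoint_left]
      intro y hy hy'
      rw [Set.mem_singleton_iff] at hy'
      rw [hy'] at hy
      rcases hy with hy | hy
      · exact hx hy
      · exact hr hy)
    have hz : ∀ ψ, (⟨fun y => (h y : ℂ), by fun_prop⟩ : C(X, ℂ)) (ι ψ) = 0 := by
      intro ψ
      show ((h (ι ψ) : ℝ) : ℂ) = 0
      have h2 : h (ι ψ) = 0 := h0 (Or.inr ⟨ψ, rfl⟩)
      rw [h2]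
      simp
    refine ⟨zf ι _ hz, ?_, ?_⟩
    · show ((h x : ℝ) : ℂ) ≠ 0
      have h2 : h x = 1 := h1 rfl
      rw [h2]
      simp
    · intro y hy
      show ((h y : ℝ) : ℂ) = 0
      have h2 : h y = 0 := h0 (Or.inl hy)
      rw [h2]
      simp

theorem pt_injective (E0 : C(characterSpace ℂ B, ℂ) →L[ℂ] C(X, ℂ))
    (hE : ∀ g ψ, E0 g (ι ψ) = g ψ) (hreg : Regular B) : Function.Injective (pt ι) := by
  intro x y hxy
  by_contra hne
  obtain ⟨a, ha1, ha2⟩ := sep ι E0 hE hreg {y} isClosed_singleton x hne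
  apply ha1
  rw [← pt_apply, hxy, pt_apply]
  exact ha2 y rfl

theorem pt_surjective (E0 : C(characterSpace ℂ B, ℂ) →L[ℂ] C(X, ℂ))
    (hE : ∀ g ψ, E0 g (ι ψ) = g ψ) : Function.Surjective (pt ι) := by
  intro φ
  by_cases h : ∃ a, pr ι a = 0 ∧ φ a ≠ 0
  · obtain ⟨a, ha, hφ⟩ := h
    have h0 : ∀ ψ, fn ι a (ι ψ) = 0 := by
      intro ψ
      rw [fn_iota, ha, map_zero]
    have hM0 : ∀ (g : C(X, ℂ)) ψ, (fn ι a * g) (ι ψ) = 0 := by
      intro g ψ
      show fn ι a (ι ψ) * g (ι ψ) = 0
      rw [h0, zero_mul]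
    let M : C(X, ℂ) → PB ι := fun g => zf ι (fn ι a * g) (hM0 g)
    have hM1 : M 1 = a := by
      refine PB_ext ι ?_ ?_
      · rw [ha]
        rfl
      · show fn ι a * 1 = fn ι a
        rw [mul_one]
    have hMadd : ∀ f g, M (f + g) = M f + M g := by
      intro f g
      refine PB_ext ι ?_ ?_
      · show (0 : B) = 0 + 0
        rw [add_zero]
      · show fn ι a * (f + g) = fn ι a * f + fn ι a * g
        rw [mul_add]
    have hMsmul : ∀ (c : ℂ) f, M (c • f) = c • M f := by
      intro c f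
      refine PB_ext ι ?_ ?_
      · show (0 : B) = c • 0
        rw [smul_zero]
      · show fn ι a * (c • f) = c • (fn ι a * f)
        rw [mul_smul_comm]
    have hMmul : ∀ f g, M (f * g) * a = M f * M g := by
      intro f g
      refine PB_ext ι ?_ ?_
      · show (0 : B) * pr ι a = 0 * 0
        rw [zero_mul, zero_mul]
      · show fn ι a * (f * g) * fn ι a = fn ι a * f * (fn ι a * g)
        ring
    let Φ : C(X, ℂ) →ₐ[ℂ] ℂ := AlgHom.ofLinearMap
      { toFun := fun g => φ (M g) / φ a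
        map_add' := fun f g => by rw [hMadd, map_add, add_div]
        map_smul' := fun c f => by
          rw [hMsmul, map_smul, RingHom.id_apply, smul_eq_mul, smul_eq_mul, mul_div_assoc] }
      (by
        show φ (M 1) / φ a = 1
        rw [hM1, div_self hφ])
      (by
        intro f g
        show φ (M (f * g)) / φ a = φ (M f) / φ a * (φ (M g) / φ a)
        have h1 := congrArg φ (hMmul f g)
        rw [map_mul, map_mul] at h1
        field_simp
        rw [h1])
    obtain ⟨x, hx⟩ := (CharacterSpace.continuousMapEval_bijective (X := X) (𝕜 := ℂ)).2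
      (CharacterSpace.equivAlgHom.symm Φ)
    have hΦ : ∀ g, Φ g = g x := by
      intro g
      have h1 : (CharacterSpace.equivAlgHom.symm Φ) g = Φ g := by
        rw [CharacterSpace.equivAlgHom_symm_coe]
      rw [← h1, ← hx]
      rfl
    refine ⟨x, CharacterSpace.ext fun c => ?_⟩
    rw [pt_apply]
    have h1 : M (fn ι c) = a * c := by
      refine PB_ext ι ?_ ?_
      · rw [pr_mul, ha, zero_mul]
        rfl
      · rfl
    have h2 : φ (M (fn ι c)) / φ a = fn ι c x := hΦ (fn ι c)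
    rw [h1, map_mul, mul_div_cancel_left₀ _ hφ] at h2
    exact h2.symm
  · push Not at h
    have hk : ∀ a b : PB ι, pr ι a = pr ι b → φ a = φ b := by
      intro a b hab
      have h1 := h (a - b) (by rw [map_sub, hab, sub_self])
      rw [map_sub] at h1
      exact sub_eq_zero.1 h1
    let Ψ : B →ₐ[ℂ] ℂ := AlgHom.ofLinearMap
      { toFun := fun b => φ (sg ι E0 hE b)
        map_add' := fun a b => by rw [map_add, map_add]
        map_smul' := fun c a => by rw [map_smul, map_smul, RingHom.id_apply] }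
      (by
        show φ (sg ι E0 hE 1) = 1
        rw [hk _ 1 (by rw [pr_sg, pr_one]), map_one])
      (by
        intro a b
        show φ (sg ι E0 hE (a * b)) = φ (sg ι E0 hE a) * φ (sg ι E0 hE b)
        rw [← map_mul]
        exact hk _ _ (by rw [pr_mul, pr_sg, pr_sg, pr_sg]))
    refine ⟨ι (CharacterSpace.equivAlgHom.symm Ψ), CharacterSpace.ext fun c => ?_⟩
    rw [pt_apply, fn_iota, CharacterSpace.equivAlgHom_symm_coe]
    show φ (sg ι E0 hE (pr ι c)) = φ c
    exact hk _ _ (pr_sg ι E0 hE _)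

/-- **The spectrum of the pullback algebra is `X`.** -/
noncomputable def homeo (E0 : C(characterSpace ℂ B, ℂ) →L[ℂ] C(X, ℂ))
    (hE : ∀ g ψ, E0 g (ι ψ) = g ψ) (hreg : Regular B) : X ≃ₜ characterSpace ℂ (PB ι) :=
  Continuous.homeoOfEquivCompactToT2
    (f := Equiv.ofBijective (pt ι) ⟨pt_injective ι E0 hE hreg, pt_surjective ι E0 hE⟩)
    (pt_continuous ι)

theorem homeo_apply (E0 : C(characterSpace ℂ B, ℂ) →L[ℂ] C(X, ℂ))
    (hE : ∀ g ψ, E0 g (ι ψ) = g ψ) (hreg : Regular B) (x : X) :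
    homeo ι E0 hE hreg x = pt ι x := rfl

theorem PB_semisimple (hs : Semisimple B) : Semisimple (PB ι) := by
  intro a ha
  have h1 : ∀ x, fn ι a x = 0 := by
    intro x
    rw [← pt_apply]
    exact ha _
  refine PB_ext ι ?_ ?_
  · rw [map_zero]
    refine hs _ fun ψ => ?_
    rw [← fn_iota]
    exact h1 _
  · ext x
    rw [h1]
    rfl

theorem PB_regular (E0 : C(characterSpace ℂ B, ℂ) →L[ℂ] C(X, ℂ))
    (hE : ∀ g ψ, E0 g (ι ψ) = g ψ) (hreg : Regular B) : Regular (PB ι) := by
  intro F φ hF hφ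
  obtain ⟨x, rfl⟩ := pt_surjective ι E0 hE φ
  obtain ⟨a, ha1, ha2⟩ := sep ι E0 hE hreg (pt ι ⁻¹' F) (hF.preimage (pt_continuous ι)) x hφ
  refine ⟨a, by rwa [pt_apply], fun ψ hψ => ?_⟩
  obtain ⟨y, rfl⟩ := pt_surjective ι E0 hE ψ
  rw [pt_apply]
  exact ha2 y hψ

end Pool.Agent.KS6_5.HT
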