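import Mathlib
import Pool.Agent.KS6_5.HT.Defs
import Pool.Agent.KS6_5.HT.Spec

/-! # Hyper-Tauberian algebras have spectral points -/

set_option autoImplicit false
set_option maxSynthPendingDepth 3
set_option linter.unusedSectionVars false
set_option maxHeartbeats 1000000

open Filter Topology H611R3.ZL WeakDual H611R4

namespace Pool.Agent.KS6_5.HT

section General

variable {A : Type} [NormedCommRing A] [NormedAlgebra ℂ A] [CompleteSpace A]

theorem spectral_of_hyperTaub (hH : HyperTaub A) (ω : characterSpace ℂ A) : SpectralPoint A ω := by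
  intro a hωa ε hε
  set c : ℝ := ‖(1 : A)‖ + 1 with hc
  have hc0 : 0 < c := by positivity
  let ua : ℕ → A := fun i => if i = 0 then a else if i = 1 then -1 else 0
  let ub : ℕ → A := fun i => if i = 0 then 1 else if i = 1 then a else 0
  have hsupp : ∀ i, i ∉ Finset.range 2 → ua i = 0 ∧ ub i = 0 := by
    intro i hi
    rw [Finset.mem_range] at hi
    have h0 : i ≠ 0 := by omega
    have h1 : i ≠ 1 := by omega
    simp [ua, ub, h0, h1]
  let u : Tens A := ⟨ua, ub, summable_of_ne_finset_zero (s := Finset.range 2) fun i hi => by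
    simp [(hsupp i hi).1]⟩
  have hueval : ∀ β : A → A → ℂ, β 0 0 = 0 → u.eval β = β a 1 + β (-1) a := by
    intro β h0
    unfold Tens.eval
    rw [tsum_eq_sum (s := Finset.range 2) (fun i hi => by
      show β (ua i) (ub i) = 0
      rw [(hsupp i hi).1, (hsupp i hi).2, h0])]
    rw [Finset.sum_range_succ, Finset.sum_range_one]
    rfl
  have hug : ∀ φ, u.gel (φ, φ) = 0 := by
    intro φ
    unfold Tens.gel
    rw [hueval _ (by simp)]
    simp
  obtain ⟨v, hv, w, hw, hnear⟩ := hH u hug (ε / c) (by positivity)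
  have hchar : ∀ x : A, ‖ω x‖ ≤ c * ‖x‖ := fun x =>
    (char_bound ω x).trans (mul_le_mul_of_nonneg_right (by rw [hc]; linarith) (norm_nonneg _))
  have hsb : Summable fun i => ω (v.b i) • v.a i := by
    refine Summable.of_norm_bounded (v.summable.mul_left c) fun i => ?_
    rw [norm_smul]
    calc ‖ω (v.b i)‖ * ‖v.a i‖ ≤ (c * ‖v.b i‖) * ‖v.a i‖ :=
          mul_le_mul_of_nonneg_right (hchar _) (norm_nonneg _)
      _ = _ := by ring
  set b : A := ∑' i, ω (v.b i) • v.a i with hbdef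
  have hb : ∀ f : A →L[ℂ] ℂ, f b = v.eval fun x y => f x * ω y := by
    intro f
    rw [hbdef, f.map_tsum hsb]
    unfold Tens.eval
    refine tsum_congr fun i => ?_
    rw [map_smul, smul_eq_mul, mul_comm]
  have hbil : ∀ f : A →L[ℂ] ℂ, IsBil A fun x y => f x * ω y := fun f =>
    (f.smulRight (CharacterSpace.toCLM ω)).isBoundedBilinearMap
  have hab : ‖a - b‖ ≤ c * ∑' i, ‖w.a i‖ * ‖w.b i‖ := by
    refine NormedSpace.norm_le_dual_bound ℂ _
      (mul_nonneg hc0.le (tsum_nonneg fun i => by positivity)) fun f => ?_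
    have e1 : f (a - b) = w.eval fun x y => f x * ω y := by
      rw [← hnear _ (hbil f), map_sub, hb, hueval _ (by simp)]
      simp [hωa]
    rw [e1]
    unfold Tens.eval
    have h2 : Summable fun i => ‖f‖ * (c * (‖w.a i‖ * ‖w.b i‖)) := (w.summable.mul_left _).mul_left _
    calc ‖∑' i, f (w.a i) * ω (w.b i)‖ ≤ ∑' i, ‖f‖ * (c * (‖w.a i‖ * ‖w.b i‖)) := by
          refine tsum_of_norm_bounded h2.hasSum fun i => ?_
          rw [norm_mul]
          calc ‖f (w.a i)‖ * ‖ω (w.b i)‖ ≤ (‖f‖ * ‖w.a i‖) * (c * ‖w.b i‖) :=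
                mul_le_mul (f.le_opNorm _) (hchar _) (norm_nonneg _) (by positivity)
            _ = _ := by ring
      _ = ‖f‖ * (c * ∑' i, ‖w.a i‖ * ‖w.b i‖) := by rw [tsum_mul_left, tsum_mul_left]
      _ = _ := mul_comm _ _
  have hlt : ‖a - b‖ < ε := by
    refine hab.trans_lt ?_
    rw [lt_div_iff₀ hc0] at hw
    linarith
  refine ⟨b, ?_, hlt⟩
  have hopen : IsOpen {φ : characterSpace ℂ A | (φ, ω) ∈ (closure {p | v.gel p ≠ 0})ᶜ} :=
    isClosed_closure.isOpen_compl.preimage (Continuous.prodMk continuous_id continuous_const)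
  have hmem : ω ∈ {φ : characterSpace ℂ A | (φ, ω) ∈ (closure {p | v.gel p ≠ 0})ᶜ} := hv ω
  intro hcl
  rw [mem_closure_iff] at hcl
  obtain ⟨ψ, h1, h2⟩ := hcl _ hopen hmem
  apply h2
  have h3 : v.gel (ψ, ω) = 0 := by
    by_contra h
    exact h1 (subset_closure h)
  have h4 := hb (CharacterSpace.toCLM ψ)
  rw [CharacterSpace.coe_toCLM] at h4
  rw [h4]
  exact h3

end General

variable {B : Type} [NormedCommRing B] [NormedAlgebra ℂ B] [CompleteSpace B]
  {X : Type} [TopologicalSpace X] [CompactSpace X] [T2Space X]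
  (ι : C(characterSpace ℂ B, X))

theorem spectral_down (E0 : C(characterSpace ℂ B, ℂ) →L[ℂ] C(X, ℂ))
    (hE : ∀ g ψ, E0 g (ι ψ) = g ψ) (ω : characterSpace ℂ B) (S : Set X) (hS : ι ω ∈ S)
    (hES : ∀ (g : C(characterSpace ℂ B, ℂ)), ∀ z ∈ S, E0 g z = g ω)
    (h : SpectralSet (PB ι) (pt ι '' S)) : SpectralPoint B ω := by
  intro b hb ε hε
  obtain ⟨c, hc, hn⟩ := h (sg ι E0 hE b) (by
    rintro _ ⟨z, hz, rfl⟩
    rw [pt_apply, fn_sg, hES _ z hz, G0_apply, hb]) ε hε
  refine ⟨pr ι c, ?_, ?_⟩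
  · intro hcl
    refine Set.disjoint_left.1 hc ?_ ⟨ι ω, hS, rfl⟩
    have h1 : Continuous fun ψ : characterSpace ℂ B => pt ι (ι ψ) :=
      (pt_continuous ι).comp ι.continuous
    have h2 : {ψ : characterSpace ℂ B | ψ (pr ι c) ≠ 0} =
        (fun ψ => pt ι (ι ψ)) ⁻¹' {φ | φ c ≠ 0} := by
      ext ψ
      simp only [Set.mem_ofPred_eq, Set.mem_preimage]
      rw [pt_apply, fn_iota]
    rw [h2] at hcl
    exact h1.closure_preimage_subset _ hcl
  · have h1 : b - pr ι c = pr ι (sg ι E0 hE b - c) := by rw [map_sub, pr_sg]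
    rw [h1]
    have h2 : ‖pr ι (sg ι E0 hE b - c)‖ ≤ ‖sg ι E0 hE b - c‖ := by
      rw [norm_PB]
      exact le_max_left _ _
    exact h2.trans_lt hn

end Pool.Agent.KS6_5.HT
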