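import Mathlib
import Pool.Agent.KS6_5.HT.Spec

/-! # Semisimplicity of the tensor square of the pullback algebra -/

set_option autoImplicit false
set_option maxSynthPendingDepth 3
set_option linter.unusedSectionVars false
set_option maxHeartbeats 2000000

open Filter Topology H611R3.ZL WeakDual H611R4

namespace Pool.Agent.KS6_5.HT

section Slice

variable {A : Type} [NormedCommRing A] [NormedAlgebra ℂ A] [CompleteSpace A]

/-- the slices of an element with vanishing Gelfand transform vanish -/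
theorem slice_zero (hs : Semisimple A) (u : Tens A) (hu : ∀ p, u.gel p = 0) (f : A →L[ℂ] ℂ) :
    ∑' i, f (u.a i) • u.b i = 0 := by
  have hsum1 : ∀ g : A →L[ℂ] ℂ, Summable fun i => g (u.a i) • u.b i := by
    intro g
    refine Summable.of_norm_bounded (u.summable.mul_left ‖g‖) fun i => ?_
    rw [norm_smul, ← mul_assoc]
    exact mul_le_mul_of_nonneg_right (g.le_opNorm _) (norm_nonneg _)
  have hsum2 : ∀ g : A →L[ℂ] ℂ, Summable fun i => g (u.b i) • u.a i := by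
    intro g
    refine Summable.of_norm_bounded (u.summable.mul_left ‖g‖) fun i => ?_
    rw [norm_smul]
    calc ‖g (u.b i)‖ * ‖u.a i‖ ≤ (‖g‖ * ‖u.b i‖) * ‖u.a i‖ :=
          mul_le_mul_of_nonneg_right (g.le_opNorm _) (norm_nonneg _)
      _ = _ := by ring
  refine hs _ fun ψ => ?_
  have h1 : ψ (∑' i, f (u.a i) • u.b i) = ∑' i, f (u.a i) * ψ (u.b i) := by
    have h2 := (CharacterSpace.toCLM ψ).map_tsum (hsum1 f)
    rw [CharacterSpace.coe_toCLM] at h2
    rw [h2]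
    refine tsum_congr fun i => ?_
    rw [map_smul, smul_eq_mul]
  have h3 : ∑' i, (CharacterSpace.toCLM ψ) (u.b i) • u.a i = 0 := by
    refine hs _ fun φ => ?_
    have h2 := (CharacterSpace.toCLM φ).map_tsum (hsum2 (CharacterSpace.toCLM ψ))
    rw [CharacterSpace.coe_toCLM] at h2
    rw [h2]
    have h4 := hu (φ, ψ)
    unfold Tens.gel Tens.eval at h4
    rw [← h4]
    refine tsum_congr fun i => ?_
    rw [map_smul, smul_eq_mul, CharacterSpace.coe_toCLM, mul_comm]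
  have h5 := f.map_tsum (hsum2 (CharacterSpace.toCLM ψ))
  rw [h3, map_zero] at h5
  rw [h1, h5]
  refine tsum_congr fun i => ?_
  rw [map_smul, smul_eq_mul, CharacterSpace.coe_toCLM, mul_comm]

end Slice

section Part

variable {X : Type} [TopologicalSpace X] [CompactSpace X] [T2Space X]

/-- finite rank approximation of finitely many functions -/
theorem partition {N : ℕ} (F : C(X, Fin N → ℂ)) (δ : ℝ) (hδ : 0 < δ) :
    ∃ (t : Finset X) (g : X → C(X, ℝ)), (∀ k x, 0 ≤ g k x) ∧ (∀ x, ∑ k ∈ t, g k x ≤ 1) ∧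
      (∀ k ∈ t, ∀ x, F x = 0 → g k x = 0) ∧
      ∀ x, ‖F x - ∑ k ∈ t, (g k x : ℂ) • F k‖ ≤ 2 * δ := by
  classical
  let K : Set X := {x | δ ≤ ‖F x‖}
  have hK : IsCompact K := (isClosed_le continuous_const (by fun_prop)).isCompact
  obtain ⟨t, htK, htc⟩ := hK.elim_nhds_subcover (fun k => {x | ‖F x - F k‖ < δ}) (by
    intro k _
    refine IsOpen.mem_nhds (isOpen_lt (by fun_prop) continuous_const) ?_
    simpa using hδ)
  let w : X → X → ℝ := fun k x => max 0 (δ - ‖F x - F k‖)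
  let w0 : X → ℝ := fun x => max 0 (2 * δ - ‖F x‖)
  let Dn : X → ℝ := fun x => w0 x + ∑ k ∈ t, w k x
  have hw : ∀ k x, 0 ≤ w k x := fun k x => le_max_left _ _
  have hw0 : ∀ x, 0 ≤ w0 x := fun x => le_max_left _ _
  have hD : ∀ x, 0 < Dn x := by
    intro x
    by_cases hx : ‖F x‖ < 2 * δ
    · have h1 : 0 < w0 x := lt_max_of_lt_right (by linarith)
      exact add_pos_of_pos_of_nonneg h1 (Finset.sum_nonneg fun k _ => hw k x)
    · push Not at hx
      have hxK : x ∈ K := by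
        show δ ≤ ‖F x‖
        linarith
      have h1 := htc hxK
      rw [Set.mem_iUnion₂] at h1
      obtain ⟨k, hk, h2⟩ := h1
      have h3 : 0 < w k x := lt_max_of_lt_right (by
        have : ‖F x - F k‖ < δ := h2
        linarith)
      exact add_pos_of_nonneg_of_pos (hw0 x)
        (Finset.sum_pos' (fun k _ => hw k x) ⟨k, hk, h3⟩)
  have hwc : ∀ k, Continuous (w k) := fun k => by
    show Continuous fun x => max 0 (δ - ‖F x - F k‖)
    fun_prop
  have hw0c : Continuous w0 := by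
    show Continuous fun x => max 0 (2 * δ - ‖F x‖)
    fun_prop
  have hDc : Continuous Dn := hw0c.add (continuous_finsetSum _ fun k _ => hwc k)
  refine ⟨t, fun k => ⟨fun x => w k x / Dn x, (hwc k).div hDc fun x => (hD x).ne'⟩,
    fun k x => div_nonneg (hw k x) (hD x).le, fun x => ?_, ?_, ?_⟩
  · show ∑ k ∈ t, w k x / Dn x ≤ 1
    rw [← Finset.sum_div, div_le_one (hD x)]
    have := hw0 x
    show _ ≤ w0 x + _
    linarith
  · intro k hk x hx
    show w k x / Dn x = 0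
    have h1 : w k x = 0 := by
      have h2 : δ ≤ ‖F k‖ := htK k hk
      show max 0 (δ - ‖F x - F k‖) = 0
      rw [hx, zero_sub, norm_neg]
      exact max_eq_left (by linarith)
    rw [h1, zero_div]
  · intro x
    have hD0 : ((Dn x : ℝ) : ℂ) ≠ 0 := by exact_mod_cast (hD x).ne'
    have h1 : F x - ∑ k ∈ t, ((w k x / Dn x : ℝ) : ℂ) • F k =
        ((Dn x : ℝ) : ℂ)⁻¹ • (((w0 x : ℝ) : ℂ) • F x + ∑ k ∈ t, ((w k x : ℝ) : ℂ) • (F x - F k)) := by
      rw [smul_add, Finset.smul_sum]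
      have h2 : F x = ((Dn x : ℝ) : ℂ)⁻¹ • ((w0 x : ℝ) : ℂ) • F x +
          ∑ k ∈ t, ((Dn x : ℝ) : ℂ)⁻¹ • ((w k x : ℝ) : ℂ) • F x := by
        rw [smul_smul]
        simp_rw [smul_smul]
        rw [← Finset.sum_smul, ← add_smul, ← Finset.mul_sum, ← mul_add]
        have h3 : ((w0 x : ℝ) : ℂ) + ∑ k ∈ t, ((w k x : ℝ) : ℂ) = ((Dn x : ℝ) : ℂ) := by
          show _ = ((w0 x + ∑ k ∈ t, w k x : ℝ) : ℂ)
          push_cast
          rfl
        rw [h3, inv_mul_cancel₀ hD0, one_smul]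
      conv_lhs => rw [h2]
      rw [add_sub_assoc, ← Finset.sum_sub_distrib]
      congr 1
      refine Finset.sum_congr rfl fun k _ => ?_
      rw [smul_sub, smul_sub, smul_smul (((Dn x : ℝ) : ℂ)⁻¹) _ (F k)]
      congr 2
      push_cast
      rw [div_eq_inv_mul]
    show ‖F x - ∑ k ∈ t, ((w k x / Dn x : ℝ) : ℂ) • F k‖ ≤ 2 * δ
    rw [h1, norm_smul, norm_inv, Complex.norm_real, Real.norm_of_nonneg (hD x).le,
      inv_mul_le_iff₀ (hD x)]
    have h4 : ‖((w0 x : ℝ) : ℂ) • F x‖ ≤ w0 x * (2 * δ) := by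
      rw [norm_smul, Complex.norm_real, Real.norm_of_nonneg (hw0 x)]
      rcases lt_or_ge ‖F x‖ (2 * δ) with h | h
      · exact mul_le_mul_of_nonneg_left h.le (hw0 x)
      · have h5 : w0 x = 0 := max_eq_left (by linarith)
        rw [h5, zero_mul, zero_mul]
    have h5 : ∀ k, ‖((w k x : ℝ) : ℂ) • (F x - F k)‖ ≤ w k x * (2 * δ) := by
      intro k
      rw [norm_smul, Complex.norm_real, Real.norm_of_nonneg (hw k x)]
      rcases lt_or_ge ‖F x - F k‖ δ with h | h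
      · exact mul_le_mul_of_nonneg_left (by linarith) (hw k x)
      · have h6 : w k x = 0 := max_eq_left (by linarith)
        rw [h6, zero_mul, zero_mul]
    calc ‖((w0 x : ℝ) : ℂ) • F x + ∑ k ∈ t, ((w k x : ℝ) : ℂ) • (F x - F k)‖
        ≤ ‖((w0 x : ℝ) : ℂ) • F x‖ + ∑ k ∈ t, ‖((w k x : ℝ) : ℂ) • (F x - F k)‖ :=
          (norm_add_le _ _).trans (add_le_add le_rfl (norm_sum_le _ _))
      _ ≤ w0 x * (2 * δ) + ∑ k ∈ t, w k x * (2 * δ) :=
          add_le_add h4 (Finset.sum_le_sum fun k _ => h5 k)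
      _ = Dn x * (2 * δ) := by
          rw [← Finset.sum_mul, ← add_mul]

end Part

variable {B : Type} [NormedCommRing B] [NormedAlgebra ℂ B] [CompleteSpace B]
  {X : Type} [TopologicalSpace X] [CompactSpace X] [T2Space X]
  (ι : C(characterSpace ℂ B, X))

/-- finite rank approximation of an operator into the kernel of the restriction -/
theorem finite_rank (r : PB ι →L[ℂ] PB ι) (hr : ∀ a, pr ι (r a) = 0) (N : ℕ) (c : ℕ → PB ι)
    (δ : ℝ) (hδ0 : 0 < δ) : ∃ (t : Finset X) (z : X → PB ι),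
      (∀ a, ‖r a - ∑ k ∈ t, fn ι (r a) k • z k‖ ≤ 2 * ‖r‖ * ‖a‖) ∧
      ∀ i < N, ‖r (c i) - ∑ k ∈ t, fn ι (r (c i)) k • z k‖ ≤ 2 * δ := by
  classical
  have hr0 : ∀ a ψ, fn ι (r a) (ι ψ) = 0 := by
    intro a ψ
    rw [fn_iota, hr, map_zero]
  let F : C(X, Fin N → ℂ) := ⟨fun x i => fn ι (r (c i)) x, by fun_prop⟩
  obtain ⟨t, g, hg0, hg1, hgz, hF⟩ := partition F δ hδ0
  have hFι : ∀ ψ, F (ι ψ) = 0 := by
    intro ψ
    funext i
    exact hr0 _ ψ
  let gc : X → C(X, ℂ) := fun k => ⟨fun x => (g k x : ℂ), by fun_prop⟩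
  have hgc : ∀ k ∈ t, ∀ ψ, gc k (ι ψ) = 0 := by
    intro k hk ψ
    show ((g k (ι ψ) : ℝ) : ℂ) = 0
    rw [hgz k hk _ (hFι ψ)]
    simp
  let z : X → PB ι := fun k => if hk : k ∈ t then zf ι (gc k) (hgc k hk) else 0
  have hz1 : ∀ k, pr ι (z k) = 0 := by
    intro k
    by_cases hk : k ∈ t
    · simp only [z, dif_pos hk]
      rfl
    · simp only [z, dif_neg hk, map_zero]
  have hz2 : ∀ k ∈ t, fn ι (z k) = gc k := by
    intro k hk
    simp only [z, dif_pos hk]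
    rfl
  let P : PB ι → PB ι := fun a => ∑ k ∈ t, fn ι (r a) k • z k
  have hP : ∀ a x, fn ι (P a) x = ∑ k ∈ t, (g k x : ℂ) * fn ι (r a) k := by
    intro a x
    show fn ι (∑ k ∈ t, fn ι (r a) k • z k) x = _
    rw [map_sum, ContinuousMap.sum_apply]
    refine Finset.sum_congr rfl fun k hk => ?_
    rw [map_smul, hz2 k hk]
    show fn ι (r a) k * (g k x : ℂ) = _
    rw [mul_comm]
  have hP1 : ∀ a, pr ι (P a) = 0 := by
    intro a
    show pr ι (∑ k ∈ t, fn ι (r a) k • z k) = 0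
    rw [map_sum]
    refine Finset.sum_eq_zero fun k _ => ?_
    rw [map_smul, hz1 k, smul_zero]
  have hnorm : ∀ a, ‖r a - P a‖ = ‖fn ι (r a - P a)‖ := by
    intro a
    rw [norm_PB]
    have : pr ι (r a - P a) = 0 := by rw [map_sub, hr, hP1, sub_zero]
    rw [this, norm_zero]
    exact max_eq_right (norm_nonneg _)
  refine ⟨t, z, fun a => ?_, fun i hi => ?_⟩
  · show ‖r a - P a‖ ≤ 2 * ‖r‖ * ‖a‖
    rw [hnorm]
    refine (ContinuousMap.norm_le _ (by positivity)).2 fun x => ?_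
    rw [map_sub]
    show ‖fn ι (r a) x - fn ι (P a) x‖ ≤ _
    rw [hP]
    have h0 : ∀ y, ‖fn ι (r a) y‖ ≤ ‖r‖ * ‖a‖ := by
      intro y
      refine ((fn ι (r a)).norm_coe_le_norm y).trans ?_
      have h1 : ‖fn ι (r a)‖ ≤ ‖r a‖ := by
        rw [norm_PB]
        exact le_max_right _ _
      exact h1.trans (r.le_opNorm a)
    have h1 : ‖∑ k ∈ t, (g k x : ℂ) * fn ι (r a) k‖ ≤ ‖r‖ * ‖a‖ := by
      refine (norm_sum_le _ _).trans ?_
      calc ∑ k ∈ t, ‖(g k x : ℂ) * fn ι (r a) k‖ ≤ ∑ k ∈ t, g k x * (‖r‖ * ‖a‖) := by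
            refine Finset.sum_le_sum fun k _ => ?_
            rw [norm_mul, Complex.norm_real, Real.norm_of_nonneg (hg0 k x)]
            exact mul_le_mul_of_nonneg_left (h0 k) (hg0 k x)
        _ = (∑ k ∈ t, g k x) * (‖r‖ * ‖a‖) := by rw [Finset.sum_mul]
        _ ≤ 1 * (‖r‖ * ‖a‖) := mul_le_mul_of_nonneg_right (hg1 x) (by positivity)
        _ = _ := one_mul _
    refine (norm_sub_le _ _).trans ?_
    linarith [h0 x]
  · show ‖r (c i) - P (c i)‖ ≤ 2 * δ
    rw [hnorm]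
    refine (ContinuousMap.norm_le _ (by positivity)).2 fun x => ?_
    rw [map_sub]
    show ‖fn ι (r (c i)) x - fn ι (P (c i)) x‖ ≤ _
    rw [hP]
    have h1 := (norm_le_pi_norm (F x - ∑ k ∈ t, (g k x : ℂ) • F k) ⟨i, hi⟩).trans (hF x)
    have h2 : (F x - ∑ k ∈ t, (g k x : ℂ) • F k) ⟨i, hi⟩ =
        fn ι (r (c i)) x - ∑ k ∈ t, (g k x : ℂ) * fn ι (r (c i)) k := by
      rw [Pi.sub_apply, Finset.sum_apply]
      rfl
    rwa [h2] at h1

/-- the finite rank part vanishes -/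
theorem finite_part (hss : Semisimple (PB ι)) (u : Tens (PB ι)) (hu : ∀ p, u.gel p = 0)
    (r : PB ι →L[ℂ] PB ι) (γ : PB ι →L[ℂ] PB ι →L[ℂ] ℂ) (t : Finset X) (z : X → PB ι) :
    ∑' i, γ (∑ k ∈ t, fn ι (r (u.a i)) k • z k) (u.b i) = 0 := by
  have hsm : ∀ k ∈ t, Summable fun i => fn ι (r (u.a i)) k • u.b i := by
    intro k _
    refine Summable.of_norm_bounded (u.summable.mul_left ‖r‖) fun i => ?_
    rw [norm_smul, ← mul_assoc]
    refine mul_le_mul_of_nonneg_right ?_ (norm_nonneg _)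
    refine ((fn ι (r (u.a i))).norm_coe_le_norm k).trans ?_
    have h1 : ‖fn ι (r (u.a i))‖ ≤ ‖r (u.a i)‖ := by
      rw [norm_PB]
      exact le_max_right _ _
    exact h1.trans (r.le_opNorm _)
  have h1 : ∀ i, γ (∑ k ∈ t, fn ι (r (u.a i)) k • z k) (u.b i) =
      ∑ k ∈ t, γ (z k) (fn ι (r (u.a i)) k • u.b i) := by
    intro i
    rw [map_sum, sum_apply]
    refine Finset.sum_congr rfl fun k _ => ?_
    rw [map_smul, map_smul]
    rfl
  simp_rw [h1]
  rw [Summable.tsum_finsetSum fun k hk => (hsm k hk).mapL (γ (z k))]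
  refine Finset.sum_eq_zero fun k hk => ?_
  rw [← (γ (z k)).map_tsum (hsm k hk)]
  have hev : ∃ e : PB ι →L[ℂ] ℂ, ∀ a, e a = fn ι (r a) k := by
    refine ⟨(ContinuousMap.evalCLM ℂ k).comp ((fn ι).comp r), fun a => rfl⟩
  obtain ⟨e, he⟩ := hev
  have h2 := slice_zero hss u hu e
  simp_rw [he] at h2
  rw [h2, map_zero]

/-- a bounded operator into the kernel kills tensors with vanishing Gelfand transform -/
theorem kernel_part (hss : Semisimple (PB ι)) (u : Tens (PB ι)) (hu : ∀ p, u.gel p = 0)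
    (r : PB ι →L[ℂ] PB ι) (hr : ∀ a, pr ι (r a) = 0) (γ : PB ι →L[ℂ] PB ι →L[ℂ] ℂ) :
    ∑' i, γ (r (u.a i)) (u.b i) = 0 := by
  have hC : ∀ ε > 0, ‖∑' i, γ (r (u.a i)) (u.b i)‖ ≤ ε * (‖γ‖ * 2 + ‖γ‖ * (2 * ‖r‖)) := by
    intro ε hε
    obtain ⟨N, hN⟩ : ∃ N, ∑' i, ‖u.a (i + N)‖ * ‖u.b (i + N)‖ ≤ ε := by
      have h1 := tendsto_sum_nat_add fun i => ‖u.a i‖ * ‖u.b i‖
      have h2 := h1.eventually (eventually_le_nhds hε)
      exact h2.exists
    set Sb : ℝ := ∑ i ∈ Finset.range N, ‖u.b i‖ with hSb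
    have hSb0 : 0 ≤ Sb := Finset.sum_nonneg fun i _ => norm_nonneg _
    set δ : ℝ := ε / (1 + Sb) with hδ
    have hδ0 : 0 < δ := by positivity
    obtain ⟨t, z, hP2, hP3⟩ := finite_rank ι r hr N u.a δ hδ0
    have hzero := finite_part ι hss u hu r γ t z
    -- abstract the operator
    obtain ⟨Q, hQ⟩ : ∃ Q : ℕ → PB ι, ∀ i, Q i = ∑ k ∈ t, fn ι (r (u.a i)) k • z k :=
      ⟨_, fun i => rfl⟩
    have hQ2 : ∀ i, ‖r (u.a i) - Q i‖ ≤ 2 * ‖r‖ * ‖u.a i‖ := fun i => by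
      rw [hQ]
      exact hP2 _
    have hQ3 : ∀ i < N, ‖r (u.a i) - Q i‖ ≤ 2 * δ := fun i hi => by
      rw [hQ]
      exact hP3 i hi
    have hzero' : ∑' i, γ (Q i) (u.b i) = 0 := by
      rw [← hzero]
      refine tsum_congr fun i => ?_
      rw [hQ]
    clear hP2 hP3 hzero hQ
    have hsum1 : Summable fun i => γ (r (u.a i)) (u.b i) := by
      refine Summable.of_norm_bounded (u.summable.mul_left (‖γ‖ * ‖r‖)) fun i => ?_
      refine (γ.le_opNorm₂ _ _).trans ?_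
      have h1 := r.le_opNorm (u.a i)
      calc ‖γ‖ * ‖r (u.a i)‖ * ‖u.b i‖ ≤ ‖γ‖ * (‖r‖ * ‖u.a i‖) * ‖u.b i‖ := by gcongr
        _ = _ := by ring
    have hbd : ∀ i, ‖γ (r (u.a i) - Q i) (u.b i)‖ ≤
        ‖γ‖ * (2 * ‖r‖) * (‖u.a i‖ * ‖u.b i‖) := by
      intro i
      refine (γ.le_opNorm₂ _ _).trans ?_
      have h1 := hQ2 i
      calc ‖γ‖ * ‖r (u.a i) - Q i‖ * ‖u.b i‖ ≤ ‖γ‖ * (2 * ‖r‖ * ‖u.a i‖) * ‖u.b i‖ := by gcongr
        _ = _ := by ring
    have hsum2 : Summable fun i => γ (r (u.a i) - Q i) (u.b i) :=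
      Summable.of_norm_bounded (u.summable.mul_left (‖γ‖ * (2 * ‖r‖))) hbd
    have hid : ∀ i, γ (r (u.a i) - Q i) (u.b i) = γ (r (u.a i)) (u.b i) - γ (Q i) (u.b i) := by
      intro i
      rw [map_sub]
      rfl
    have hsum3 : Summable fun i => γ (Q i) (u.b i) := by
      have h1 := hsum1.sub hsum2
      refine h1.congr fun i => ?_
      rw [hid, sub_sub_cancel]
    have heq : ∑' i, γ (r (u.a i)) (u.b i) = ∑' i, γ (r (u.a i) - Q i) (u.b i) := by
      have h1 : ∀ i, γ (r (u.a i)) (u.b i) =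
          γ (r (u.a i) - Q i) (u.b i) + γ (Q i) (u.b i) := by
        intro i
        rw [hid, sub_add_cancel]
      rw [tsum_congr h1, hsum2.tsum_add hsum3, hzero', add_zero]
    rw [heq, ← hsum2.sum_add_tsum_nat_add N]
    have hA : ‖∑ i ∈ Finset.range N, γ (r (u.a i) - Q i) (u.b i)‖ ≤ ε * (‖γ‖ * 2) := by
      refine (norm_sum_le _ _).trans ?_
      have h1 : ∀ i ∈ Finset.range N, ‖γ (r (u.a i) - Q i) (u.b i)‖ ≤ ‖γ‖ * (2 * δ) * ‖u.b i‖ := by
        intro i hi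
        refine (γ.le_opNorm₂ _ _).trans ?_
        have h2 := hQ3 i (Finset.mem_range.1 hi)
        gcongr
      refine (Finset.sum_le_sum h1).trans ?_
      rw [← Finset.mul_sum, ← hSb]
      have h3 : δ * Sb ≤ ε := by
        rw [hδ, div_mul_eq_mul_div, div_le_iff₀ (by positivity)]
        nlinarith
      nlinarith [norm_nonneg γ, mul_le_mul_of_nonneg_left h3 (norm_nonneg γ)]
    have hB : ‖∑' i, γ (r (u.a (i + N)) - Q (i + N)) (u.b (i + N))‖ ≤
        ε * (‖γ‖ * (2 * ‖r‖)) := by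
      have h1 : Summable fun i => ‖u.a (i + N)‖ * ‖u.b (i + N)‖ :=
        (summable_nat_add_iff N).2 u.summable
      have h2 : ‖∑' i, γ (r (u.a (i + N)) - Q (i + N)) (u.b (i + N))‖ ≤
          ∑' i, ‖γ‖ * (2 * ‖r‖) * (‖u.a (i + N)‖ * ‖u.b (i + N)‖) :=
        tsum_of_norm_bounded (h1.mul_left _).hasSum fun i => hbd (i + N)
      refine h2.trans ?_
      rw [tsum_mul_left]
      have h3 : 0 ≤ ‖γ‖ * (2 * ‖r‖) := by positivity
      nlinarith [mul_le_mul_of_nonneg_left hN h3]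
    refine (norm_add_le _ _).trans ?_
    linarith [hA, hB]
  have hlim : Tendsto (fun ε : ℝ => ε * (‖γ‖ * 2 + ‖γ‖ * (2 * ‖r‖))) (𝓝[>] 0) (𝓝 0) := by
    have h1 : Tendsto (fun ε : ℝ => ε * (‖γ‖ * 2 + ‖γ‖ * (2 * ‖r‖))) (𝓝 0)
        (𝓝 (0 * (‖γ‖ * 2 + ‖γ‖ * (2 * ‖r‖)))) :=
      (continuous_id.mul continuous_const).tendsto 0
    rw [zero_mul] at h1
    exact h1.mono_left nhdsWithin_le_nhds
  have h1 := ge_of_tendsto hlim (by
    filter_upwards [self_mem_nhdsWithin] with ε hε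
    exact hC ε hε)
  exact norm_le_zero_iff.1 h1

/-- **Semisimplicity of the tensor square of the pullback.** -/
theorem PB_tensSemisimple (E0 : C(characterSpace ℂ B, ℂ) →L[ℂ] C(X, ℂ))
    (hE : ∀ g ψ, E0 g (ι ψ) = g ψ) (hs : Semisimple B) (ht : TensSemisimple B) :
    TensSemisimple (PB ι) := by
  intro u hu β hβ
  have hss := PB_semisimple ι hs
  let γ : PB ι →L[ℂ] PB ι →L[ℂ] ℂ := hβ.toContinuousLinearMap
  have hγ : ∀ a b, γ a b = β a b := fun a b => rfl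
  let σ := sg ι E0 hE
  let P : PB ι →L[ℂ] PB ι := σ.comp (pr ι)
  let r : PB ι →L[ℂ] PB ι := ContinuousLinearMap.id ℂ (PB ι) - P
  have hPa : ∀ a, P a = σ (pr ι a) := fun a => rfl
  have hra : ∀ a, r a = a - σ (pr ι a) := fun a => rfl
  have hr : ∀ a, pr ι (r a) = 0 := by
    intro a
    rw [hra, map_sub, pr_sg, sub_self]
  -- the part over `B`
  let u' : Tens B := ⟨fun i => pr ι (u.a i), fun i => pr ι (u.b i), by
    refine Summable.of_nonneg_of_le (fun i => by positivity) (fun i => ?_) u.summable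
    have h1 : ‖pr ι (u.a i)‖ ≤ ‖u.a i‖ := by rw [norm_PB]; exact le_max_left _ _
    have h2 : ‖pr ι (u.b i)‖ ≤ ‖u.b i‖ := by rw [norm_PB]; exact le_max_left _ _
    exact mul_le_mul h1 h2 (norm_nonneg _) (norm_nonneg _)⟩
  have hu' : ∀ p, u'.gel p = 0 := by
    rintro ⟨φ, ψ⟩
    have h1 := hu (pt ι (ι φ), pt ι (ι ψ))
    unfold Tens.gel Tens.eval at h1 ⊢
    rw [← h1]
    refine tsum_congr fun i => ?_
    show φ (pr ι (u.a i)) * ψ (pr ι (u.b i)) = pt ι (ι φ) (u.a i) * pt ι (ι ψ) (u.b i)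
    rw [pt_apply, pt_apply, fn_iota, fn_iota]
  have h0 : ∑' i, γ (P (u.a i)) (P (u.b i)) = 0 := by
    have h1 := ht u' hu' (fun a b => γ (σ a) (σ b)) (by
      have : IsBoundedBilinearMap ℂ fun p : B × B =>
          ((γ.comp σ).flip.comp σ).flip p.1 p.2 :=
        ((γ.comp σ).flip.comp σ).flip.isBoundedBilinearMap
      exact this)
    exact h1
  -- the flipped tensor
  let v : Tens (PB ι) := ⟨u.b, u.a, by
    refine u.summable.congr fun i => mul_comm _ _⟩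
  have hv : ∀ p, v.gel p = 0 := by
    rintro ⟨φ, ψ⟩
    have h1 := hu (ψ, φ)
    unfold Tens.gel Tens.eval at h1 ⊢
    rw [← h1]
    refine tsum_congr fun i => ?_
    exact mul_comm _ _
  have h1 := kernel_part ι hss u hu r hr γ
  have h2 := kernel_part ι hss v hv r hr (γ.comp P).flip
  have h2' : ∑' i, γ (P (u.a i)) (r (u.b i)) = 0 := h2
  have hsum : ∀ S T : PB ι →L[ℂ] PB ι, Summable fun i => γ (S (u.a i)) (T (u.b i)) := by
    intro S T
    refine Summable.of_norm_bounded (u.summable.mul_left (‖γ‖ * ‖S‖ * ‖T‖)) fun i => ?_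
    refine (γ.le_opNorm₂ _ _).trans ?_
    calc ‖γ‖ * ‖S (u.a i)‖ * ‖T (u.b i)‖ ≤ ‖γ‖ * (‖S‖ * ‖u.a i‖) * (‖T‖ * ‖u.b i‖) := by
          gcongr
          · exact S.le_opNorm _
          · exact T.le_opNorm _
      _ = _ := by ring
  have hsplit : ∀ i, β (u.a i) (u.b i) = γ (P (u.a i)) (P (u.b i)) +
      (γ (P (u.a i)) (r (u.b i)) + γ (r (u.a i)) (u.b i)) := by
    intro i
    rw [← hγ, hra, hra, hPa, hPa, map_sub, map_sub, sub_apply]
    ring
  unfold Tens.eval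
  simp_rw [hsplit]
  have hs1 := hsum P P
  have hs2 := hsum P r
  have hs3 : Summable fun i => γ (r (u.a i)) (u.b i) := hsum r (ContinuousLinearMap.id ℂ (PB ι))
  rw [hs1.tsum_add (hs2.add hs3), hs2.tsum_add hs3, h0, h2', h1]
  simp

end Pool.Agent.KS6_5.HT
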