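import Mathlib
import Pool.Agent.KS6_5.HT.NotSpec
import Pool.Agent.KS6_5.HT.TensSS
import Pool.Agent.KS6_5.HT.Base
import Pool.Agent.KS6_5.HT.Extend

/-! # Amenable algebras that are not hyper-Tauberian, with prescribed spectrum -/

set_option autoImplicit false
set_option maxSynthPendingDepth 3
set_option linter.unusedSectionVars false
set_option maxHeartbeats 1000000

open Filter Topology H611R3.ZL WeakDual H611R4

namespace Pool.Agent.KS6_5.HT

/-- `A` is a commutative semisimple Banach algebra, regular on its spectrum, with semisimple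
projective tensor square, which is amenable and not hyper-Tauberian. -/
def Counterexample (A : Type) [NormedCommRing A] [NormedAlgebra ℂ A] : Prop :=
  CompleteSpace A ∧ Semisimple A ∧ Regular A ∧ TensSemisimple A ∧ Amenable A ∧ ¬ HyperTaub A

section

variable {X : Type} [TopologicalSpace X] [CompactSpace X] [T2Space X]

theorem exists_q (S : Set X) (hS : IsClosed S) (x : ℕ → X) (hxS : ∀ n, x n ∉ S) :
    ∃ q : C(X, ℝ), (∀ z ∈ S, q z = 0) ∧ ∀ n, 0 < q (x n) := by
  have h1 : ∀ n, ∃ f : C(X, ℝ), (∀ z ∈ S, f z = 0) ∧ f (x n) = 1 ∧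
      ∀ z, f z ∈ Set.Icc (0 : ℝ) 1 := by
    intro n
    obtain ⟨f, h0, h1, h2⟩ := exists_continuous_zero_one_of_isClosed
      hS (isClosed_singleton (x := x n)) (by
        rw [Set.disjoint_singleton_right]
        exact hxS n)
    exact ⟨f, fun z hz => h0 hz, h1 rfl, h2⟩
  choose f hf0 hf1 hf2 using h1
  have hsum : Summable fun n => ((1 / 2 : ℝ) ^ n) • f n := by
    refine Summable.of_norm_bounded (summable_geometric_two) fun n => ?_
    rw [norm_smul, Real.norm_of_nonneg (by positivity)]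
    have : ‖f n‖ ≤ 1 := (ContinuousMap.norm_le _ zero_le_one).2 fun z => by
      rw [Real.norm_of_nonneg (hf2 n z).1]
      exact (hf2 n z).2
    calc (1 / 2 : ℝ) ^ n * ‖f n‖ ≤ (1 / 2 : ℝ) ^ n * 1 :=
          mul_le_mul_of_nonneg_left this (by positivity)
      _ = _ := mul_one _
  have hev : ∀ z, (∑' n, ((1 / 2 : ℝ) ^ n) • f n) z = ∑' n, (1 / 2 : ℝ) ^ n * f n z := by
    intro z
    exact (ContinuousMap.evalCLM ℝ z : C(X, ℝ) →L[ℝ] ℝ).map_tsum hsum
  have hsum' : ∀ z, Summable fun n => (1 / 2 : ℝ) ^ n * f n z := by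
    intro z
    exact hsum.mapL (ContinuousMap.evalCLM ℝ z : C(X, ℝ) →L[ℝ] ℝ)
  refine ⟨∑' n, ((1 / 2 : ℝ) ^ n) • f n, ?_, fun n => ?_⟩
  · intro z hz
    rw [hev]
    simp [hf0 _ z hz]
  · rw [hev]
    refine (hsum' (x n)).tsum_pos (fun k => mul_nonneg (by positivity) (hf2 k _).1) n ?_
    rw [hf1]
    positivity

theorem exists_subseq (q : C(X, ℝ)) (p : X) (x : ℕ → X) (hx : Tendsto x atTop (𝓝 p))
    (hq0 : q p = 0) (hq : ∀ n, 0 < q (x n)) :
    ∃ φ : ℕ → ℕ, StrictMono φ ∧ ∀ n, 4 * q (x (φ (n + 1))) ≤ q (x (φ n)) := by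
  have h1 : Tendsto (fun n => 4 * q (x n)) atTop (𝓝 0) := by
    have h2 : Tendsto (fun n => 4 * q (x n)) atTop (𝓝 (4 * q p)) :=
      ((q.continuous.tendsto p).comp hx).const_mul 4
    rwa [hq0, mul_zero] at h2
  have h3 : ∀ m, ∃ n, m < n ∧ 4 * q (x n) ≤ q (x m) := by
    intro m
    have h4 := (h1.eventually (eventually_le_nhds (hq m))).and (eventually_gt_atTop m)
    obtain ⟨n, h5, h6⟩ := h4.exists
    exact ⟨n, h6, h5⟩
  choose f hf1 hf2 using h3
  refine ⟨fun n => f^[n] 0, strictMono_nat_of_lt_succ fun n => ?_, fun n => ?_⟩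
  · rw [Function.iterate_succ_apply']
    exact hf1 _
  · show 4 * q (x (f^[n + 1] 0)) ≤ q (x (f^[n] 0))
    rw [Function.iterate_succ_apply']
    exact hf2 _

/-- **The construction.** -/
theorem exists_alg (S : Set X) (hS : IsClosed S) (p : X) (hp : p ∈ S) (x : ℕ → X)
    (hx : Tendsto x atTop (𝓝 p)) (hxS : ∀ n, x n ∉ S) :
    ∃ (A : Type) (_ : NormedCommRing A) (_ : NormedAlgebra ℂ A)
      (h : X ≃ₜ characterSpace ℂ A), Counterexample A ∧ ¬ SpectralSet A (h '' S) ∧
        ¬ SpectralSet A {h p} := by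
  obtain ⟨q, hq0, hq⟩ := exists_q S hS x hxS
  obtain ⟨φ, hφ, hφ4⟩ := exists_subseq q p x hx (hq0 p hp) hq
  obtain ⟨B, i1, i2, i3, ω, hs, hr, ht, ha, hiso, hcount, hns⟩ := base
  obtain ⟨e, he⟩ := exists_injective_nat (characterSpace ℂ B)
  obtain ⟨ι, -, hιω, E0, hE, hEz⟩ := exists_ext ω hiso e he q (x ∘ φ) p
    (hx.comp hφ.tendsto_atTop) (hq0 p hp) (fun n => hq _) hφ4
  have hnot : ∀ S' : Set X, p ∈ S' → (∀ z ∈ S', q z = 0) →
      ¬ SpectralSet (PB ι) (homeo ι E0 hE hr '' S') := by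
    intro S' hp' hS' h
    apply hns
    exact spectral_down ι E0 hE ω S' (by rwa [hιω]) (fun g z hz => hEz g z (hS' z hz)) h
  have h1 : ¬ SpectralSet (PB ι) {homeo ι E0 hE hr p} := by
    rw [← Set.image_singleton]
    exact hnot {p} rfl (by
      intro z hz
      rw [Set.mem_singleton_iff.1 hz]
      exact hq0 p hp)
  have h2 : ¬ HyperTaub (PB ι) := by
    intro hH
    apply h1
    intro a ha ε hε
    obtain ⟨b, hb, hn⟩ := spectral_of_hyperTaub hH (homeo ι E0 hE hr p) a (ha _ rfl) ε hε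
    exact ⟨b, Set.disjoint_singleton_right.2 hb, hn⟩
  exact ⟨PB ι, inferInstance, inferInstance, homeo ι E0 hE hr, ⟨inferInstance,
    PB_semisimple ι hs, PB_regular ι E0 hE hr, PB_tensSemisimple ι E0 hE hs ht,
    PB_amenable ι E0 hE ha, h2⟩, hnot S hp hq0, h1⟩

end

theorem hyperTaub_of_finite {A : Type} [NormedCommRing A] [NormedAlgebra ℂ A]
    [Finite (characterSpace ℂ A)] : HyperTaub A := by
  intro u hu ε hε
  refine ⟨u, fun φ hφ => ?_, ⟨⟨fun _ => 0, fun _ => 0, by simpa using summable_zero⟩, ?_, ?_⟩⟩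
  · have h1 : closure {p | u.gel p ≠ 0} = {p | u.gel p ≠ 0} :=
      (Set.toFinite _).isClosed.closure_eq
    rw [h1] at hφ
    exact hφ (hu φ)
  · simpa using hε
  · intro β hβ
    rw [sub_self]
    unfold Tens.eval
    have h2 : β 0 0 = 0 := by
      have h3 := hβ.map_sub_left (x := 0) (y := 0) (z := (0 : A))
      simpa using h3
    simp [h2]

theorem exists_seq {X : Type} [TopologicalSpace X] [CompactSpace X]
    [TopologicalSpace.MetrizableSpace X] [Infinite X] :
    ∃ (p : X) (x : ℕ → X), Tendsto x atTop (𝓝 p) ∧ ∀ n, x n ≠ p := by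
  have h1 : ∃ p : X, ¬ IsOpen ({p} : Set X) := by
    by_contra hcon
    push Not at hcon
    have : DiscreteTopology X := discreteTopology_iff_isOpen_singleton.2 hcon
    have h2 : Finite X := finite_of_compact_of_discrete
    exact not_finite X
  obtain ⟨p, hp⟩ := h1
  have h2 : p ∈ closure ({p}ᶜ : Set X) := by
    rw [closure_compl, Set.mem_compl_iff, mem_interior_iff_mem_nhds]
    intro h
    exact hp (isOpen_singleton_iff_nhds_eq_pure p |>.2 (le_antisymm (by
      rw [le_pure_iff]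
      exact h) (pure_le_nhds p)))
  obtain ⟨x, hx1, hx2⟩ := mem_closure_iff_seq_limit.1 h2
  exact ⟨p, x, hx2, fun n => hx1 n⟩

end Pool.Agent.KS6_5.HT
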